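import Pool.Agent.H809Z.Ball.Defs
import Pool.Agent.H809Z.Berg.Geo
import Pool.Agent.Helper853.Bk.Scv

open scoped Topology ENNReal InnerProductSpace
open Filter Metric Set MeasureTheory

namespace Pool.Agent.H809Z.Ball

variable {n : ℕ}

lemma smul_decomp (c : ℂ) (u : En n) : c • u = c.re • u + c.im • (Complex.I • u) := by
  conv_lhs => rw [← Complex.re_add_im c]
  rw [add_smul, mul_smul, Complex.coe_smul, Complex.coe_smul]

/-- complexification of a real functional -/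
noncomputable def cx (L : En n →L[ℝ] ℝ) : En n →L[ℂ] ℂ := StrongDual.extendRCLike (𝕜 := ℂ) L

lemma cx_apply (L : En n →L[ℝ] ℝ) (u : En n) :
    cx L u = (L u : ℂ) - Complex.I * (L (Complex.I • u) : ℂ) := by
  simp [cx, StrongDual.extendRCLike_apply]

lemma cx_re (L : En n →L[ℝ] ℝ) (u : En n) : (cx L u).re = L u := by
  simp [cx_apply]

lemma norm_cx (L : En n →L[ℝ] ℝ) : ‖cx L‖ = ‖L‖ := StrongDual.norm_extendRCLike L

lemma cx_eq_zero {L : En n →L[ℝ] ℝ} {u : En n} :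
    cx L u = 0 ↔ L u = 0 ∧ L (Complex.I • u) = 0 := by
  rw [cx_apply, Complex.ext_iff]
  simp

lemma ctan_iff {ρ : En n → ℝ} {p u : En n} : CTan ρ p u ↔ cx (fderiv ℝ ρ p) u = 0 :=
  cx_eq_zero.symm

/-- a complex normal vector -/
lemma exists_normal (ν : En n →L[ℂ] ℂ) (h : ν ≠ 0) : ∃ N : En n, ν N = 1 ∧ ‖N‖ = ‖ν‖⁻¹ := by
  set g := (InnerProductSpace.toDual ℂ (En n)).symm ν with hg
  have h1 : ‖g‖ = ‖ν‖ := by rw [hg, LinearIsometryEquiv.norm_map]
  have h2 : 0 < ‖ν‖ := norm_pos_iff.mpr h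
  have h3 : ν g = ((‖ν‖ ^ 2 : ℝ) : ℂ) := by
    have := InnerProductSpace.toDual_symm_apply (𝕜 := ℂ) (x := g) (y := ν)
    rw [← this, ← hg, inner_self_eq_norm_sq_to_K, h1]
    simp
  refine ⟨(((‖ν‖ ^ 2)⁻¹ : ℝ) : ℂ) • g, ?_, ?_⟩
  · rw [map_smul, h3, smul_eq_mul, ← Complex.ofReal_mul, inv_mul_cancel₀ (by positivity)]
    simp
  · rw [norm_smul, Complex.norm_real, h1, Real.norm_of_nonneg (by positivity)]
    field_simp

namespace St

variable (S : St n)

lemma mem_iff {z : En n} : z ∈ S.Ω ↔ S.ρ z < 0 := by rw [S.hΩ]; rfl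

lemma cont : Continuous S.ρ := S.hρ.continuous

lemma isOpen : IsOpen S.Ω := by
  rw [S.hΩ]; exact isOpen_lt S.cont continuous_const

lemma diff (z : En n) : DifferentiableAt ℝ S.ρ z := S.hρ.differentiable (by norm_num) z

lemma contDiff_fderiv : ContDiff ℝ 1 (fderiv ℝ S.ρ) := S.hρ.fderiv_right (by norm_num)

lemma compl_nonempty : S.Ωᶜ.Nonempty := by
  obtain ⟨p, hp⟩ := S.hne
  exact ⟨p, fun h => by rw [S.mem_iff] at h; linarith⟩

/-- boundary points are limits of interior points -/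
lemma mem_closure {p : En n} (hp : S.ρ p = 0) : p ∈ closure S.Ω := by
  obtain ⟨v, hv⟩ : ∃ v, fderiv ℝ S.ρ p v < 0 := by
    by_contra h
    push Not at h
    apply S.hd p hp
    ext v
    have h1 := h v
    have h2 := h (-v)
    rw [map_neg] at h2
    simp only [zero_apply]
    linarith
  have a1 : HasDerivAt (fun t : ℝ => p + t • v) v 0 := by
    simpa using ((hasDerivAt_id (0 : ℝ)).smul_const v).const_add p
  have a2 : HasFDerivAt S.ρ (fderiv ℝ S.ρ p) (p + (0 : ℝ) • v) := by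
    simpa using (S.diff p).hasFDerivAt
  have a3 := a2.comp_hasDerivAt (0 : ℝ) a1
  have a4 := (hasDerivAt_iff_tendsto_slope_zero.mp a3).mono_left (nhdsGT_le_nhdsNE 0)
  have a5 := a4.eventually (gt_mem_nhds hv)
  have a6 : Tendsto (fun t : ℝ => p + t • v) (𝓝[>] 0) (𝓝 p) := by
    apply Tendsto.mono_left _ nhdsWithin_le_nhds
    exact Continuous.tendsto' (by fun_prop) _ _ (by simp)
  apply mem_closure_of_tendsto a6
  filter_upwards [a5, self_mem_nhdsWithin] with t ht ht0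
  have ht0' : (0 : ℝ) < t := ht0
  simp only [Function.comp_apply, zero_add, zero_smul, add_zero, hp, sub_zero, smul_eq_mul] at ht
  rw [S.mem_iff]
  by_contra h
  push Not at h
  have := mul_nonneg (inv_pos.mpr ht0').le h
  linarith

lemma compact_le : IsCompact {z | S.ρ z ≤ 0} := by
  apply S.bdd.isCompact_closure.of_isClosed_subset (isClosed_le S.cont continuous_const)
  intro z hz
  rcases lt_or_eq_of_le (show S.ρ z ≤ 0 from hz) with h | h
  · exact subset_closure (S.mem_iff.mpr h)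
  · exact S.mem_closure h

lemma compact_sub {d : ℝ} (hd : 0 ≤ d) : IsCompact {z | S.ρ z ≤ -d} :=
  S.compact_le.of_isClosed_subset (isClosed_le S.cont continuous_const)
    fun z hz => by simp only [mem_ofPred_eq] at hz ⊢; linarith

lemma exists_radius : ∃ R : ℝ, 1 ≤ R ∧ ∀ z, S.ρ z ≤ 0 → ‖z‖ ≤ R := by
  obtain ⟨R, hR⟩ := S.compact_le.isBounded.exists_norm_le
  exact ⟨max R 1, le_max_right _ _, fun z hz => (hR z hz).trans (le_max_left _ _)⟩

/-- `F` maps sublevel sets into smaller balls -/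
lemma F_bound {d : ℝ} (hd : 0 < d) : ∃ θ : ℝ, 0 ≤ θ ∧ θ < 1 ∧ ∀ z, S.ρ z ≤ -d → ‖S.F z‖ ≤ θ := by
  have hsub : {z | S.ρ z ≤ -d} ⊆ S.Ω := fun z hz => S.mem_iff.mpr (by
    simp only [mem_ofPred_eq] at hz; linarith)
  by_cases hne : {z | S.ρ z ≤ -d}.Nonempty
  · obtain ⟨z, hz, hmax⟩ := (S.compact_sub hd.le).exists_isMaxOn hne
      (S.hF.continuousOn.mono hsub).norm
    exact ⟨‖S.F z‖, norm_nonneg _, mem_ball_zero_iff.mp (S.mF (hsub hz)), fun y hy => hmax hy⟩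
  · exact ⟨0, le_rfl, one_pos, fun z hz => (hne ⟨z, hz⟩).elim⟩

/-- `φ` maps smaller balls into sublevel sets -/
lemma phi_bound {θ : ℝ} (hθ : θ < 1) : ∃ d : ℝ, 0 < d ∧ ∀ w, ‖w‖ ≤ θ → S.ρ (S.φ w) ≤ -d := by
  have hsub : closedBall (0 : En n) θ ⊆ ball 0 1 := closedBall_subset_ball hθ
  by_cases hne : (closedBall (0 : En n) θ).Nonempty
  · obtain ⟨z, hz, hmax⟩ := (isCompact_closedBall (0 : En n) θ).exists_isMaxOn hne
      (S.cont.comp_continuousOn (S.hφ.continuousOn.mono hsub))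
    refine ⟨-S.ρ (S.φ z), ?_, fun w hw => ?_⟩
    · have := S.mem_iff.mp (S.mφ (hsub hz))
      linarith
    · rw [neg_neg]
      exact hmax (mem_closedBall_zero_iff.mpr hw)
  · exact ⟨1, one_pos, fun w hw => (hne ⟨w, mem_closedBall_zero_iff.mpr hw⟩).elim⟩

/-- Lipschitz bounds on balls -/
lemma lip (R : ℝ) : ∃ C : ℝ, 0 < C ∧ ∀ x y : En n, ‖x‖ ≤ R → ‖y‖ ≤ R →
    ‖fderiv ℝ S.ρ x‖ ≤ C ∧ ‖fderiv ℝ (fderiv ℝ S.ρ) x‖ ≤ C ∧ |S.ρ y - S.ρ x| ≤ C * ‖y - x‖ ∧
      ‖fderiv ℝ S.ρ y - fderiv ℝ S.ρ x‖ ≤ C * ‖y - x‖ := by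
  obtain ⟨C₁, h₁⟩ := (isCompact_closedBall (0 : En n) R).exists_bound_of_continuousOn
    S.contDiff_fderiv.continuous.continuousOn
  obtain ⟨C₂, h₂⟩ := (isCompact_closedBall (0 : En n) R).exists_bound_of_continuousOn
    (S.contDiff_fderiv.continuous_fderiv (by norm_num)).continuousOn
  set C := max (max C₁ C₂) 1 with hC
  have e1 : C₁ ≤ C := (le_max_left _ _).trans (le_max_left _ _)
  have e2 : C₂ ≤ C := (le_max_right _ _).trans (le_max_left _ _)
  refine ⟨C, lt_of_lt_of_le one_pos (le_max_right _ _), fun x y hx hy => ?_⟩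
  rw [← mem_closedBall_zero_iff] at hx hy
  refine ⟨(h₁ x hx).trans e1, (h₂ x hx).trans e2, ?_, ?_⟩
  · exact (convex_closedBall _ _).norm_image_sub_le_of_norm_fderiv_le (𝕜 := ℝ)
      (fun z _ => S.diff z) (fun z hz => (h₁ z hz).trans e1) hx hy
  · exact (convex_closedBall _ _).norm_image_sub_le_of_norm_fderiv_le (𝕜 := ℝ)
      (fun z _ => S.contDiff_fderiv.differentiable (by norm_num) z)
      (fun z hz => (h₂ z hz).trans e2) hx hy

/-- uniform first order Taylor formula -/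
lemma taylor (R : ℝ) : ∃ C : ℝ, 0 < C ∧ ∀ z h : En n, ‖z‖ ≤ R → ‖h‖ ≤ R →
    |S.ρ (z + h) - S.ρ z - fderiv ℝ S.ρ z h| ≤ C * ‖h‖ ^ 2 := by
  obtain ⟨C, hC, hl⟩ := S.lip (R + R)
  refine ⟨C, hC, fun z h hz hh => ?_⟩
  have hR : 0 ≤ R := (norm_nonneg _).trans hz
  have key := (convex_closedBall z ‖h‖).norm_image_sub_le_of_norm_fderiv_le' (𝕜 := ℝ)
    (f := S.ρ) (φ := fderiv ℝ S.ρ z) (C := C * ‖h‖) (x := z) (y := z + h) (fun x _ => S.diff x)
    (fun x hx => by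
      rw [mem_closedBall, dist_eq_norm] at hx
      have h1 : ‖x‖ ≤ R + R := by
        have := norm_add_le (x - z) z
        rw [sub_add_cancel] at this
        linarith
      exact (hl z x (by linarith) h1).2.2.2.trans (by gcongr))
    (mem_closedBall_self (norm_nonneg _)) (by simp)
  rw [add_sub_cancel_left] at key
  calc _ ≤ C * ‖h‖ * ‖h‖ := key
    _ = _ := by ring

/-- the gradient is bounded below near the boundary -/
lemma grad_lower : ∃ d c : ℝ, 0 < d ∧ 0 < c ∧ ∀ z, -d ≤ S.ρ z → S.ρ z ≤ 0 →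
    c ≤ ‖fderiv ℝ S.ρ z‖ := by
  have hc : Continuous fun z => ‖fderiv ℝ S.ρ z‖ + |S.ρ z| :=
    S.contDiff_fderiv.continuous.norm.add S.cont.abs
  obtain ⟨p, hp⟩ := S.hne
  obtain ⟨z, hz, hmin⟩ := S.compact_le.exists_isMinOn ⟨p, hp.le⟩ hc.continuousOn
  have h0 : 0 < ‖fderiv ℝ S.ρ z‖ + |S.ρ z| := by
    by_cases h : S.ρ z = 0
    · have := norm_pos_iff.mpr (S.hd z h)
      positivity
    · have := abs_pos.mpr h
      positivity
  refine ⟨_, _, half_pos h0, half_pos h0, fun y h1 h2 => ?_⟩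
  have h3 : ‖fderiv ℝ S.ρ z‖ + |S.ρ z| ≤ ‖fderiv ℝ S.ρ y‖ + |S.ρ y| := hmin h2
  rw [abs_of_nonpos h2] at h3
  linarith

/-- complex normal vectors near the boundary -/
lemma normal : ∃ d C : ℝ, 0 < d ∧ 0 < C ∧ ∀ z, -d ≤ S.ρ z → S.ρ z ≤ 0 →
    ‖cx (fderiv ℝ S.ρ z)‖ ≤ C ∧ ∃ N : En n, cx (fderiv ℝ S.ρ z) N = 1 ∧ ‖N‖ ≤ C := by
  obtain ⟨d, c, hd, hc, h⟩ := S.grad_lower
  obtain ⟨R, -, hR⟩ := S.exists_radius
  obtain ⟨C, hC, hl⟩ := S.lip R
  refine ⟨d, max C c⁻¹, hd, lt_of_lt_of_le hC (le_max_left _ _), fun z h1 h2 => ⟨?_, ?_⟩⟩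
  · rw [norm_cx]
    exact (hl z z (hR z h2) (hR z h2)).1.trans (le_max_left _ _)
  · have h3 := h z h1 h2
    obtain ⟨N, hN, hN2⟩ := exists_normal (cx (fderiv ℝ S.ρ z))
      (by rw [← norm_pos_iff, norm_cx]; linarith)
    refine ⟨N, hN, ?_⟩
    rw [hN2, norm_cx]
    exact (inv_anti₀ hc h3).trans (le_max_right _ _)

lemma delta_pos {z : En n} (hz : z ∈ S.Ω) : 0 < S.δ z :=
  (S.isOpen.isClosed_compl.notMem_iff_infDist_pos S.compl_nonempty).mp (fun h => h hz)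

lemma delta_le_dist {z p : En n} (hp : 0 ≤ S.ρ p) : S.δ z ≤ ‖z - p‖ := by
  rw [← dist_eq_norm]
  exact infDist_le_dist_of_mem (fun h => by rw [S.mem_iff] at h; linarith)

lemma continuous_delta : Continuous S.δ := continuous_infDist_pt _

lemma ball_delta (z : En n) : ball z (S.δ z) ⊆ S.Ω := by
  intro y hy
  by_contra h
  have := infDist_le_dist_of_mem (x := z) (show y ∈ S.Ωᶜ from h)
  rw [mem_ball, dist_comm] at hy
  exact absurd hy (not_lt.mpr this)

/-- nearest boundary points -/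
lemma nearest {z : En n} (hz : z ∈ S.Ω) : ∃ q, S.ρ q = 0 ∧ S.δ z = ‖z - q‖ := by
  obtain ⟨q, hq, hq2⟩ := S.isOpen.isClosed_compl.exists_infDist_eq_dist S.compl_nonempty z
  refine ⟨q, le_antisymm ?_ (not_lt.mp fun h => hq (S.mem_iff.mpr h)), ?_⟩
  · have h1 : q ∈ closure (ball z (S.δ z)) := by
      rw [closure_ball z (S.delta_pos hz).ne', mem_closedBall, dist_comm]
      exact hq2.ge
    have h2 : closure (ball z (S.δ z)) ⊆ {y | S.ρ y ≤ 0} :=
      closure_minimal (fun y hy => (S.mem_iff.mp (S.ball_delta z hy)).le)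
        (isClosed_le S.cont continuous_const)
    exact h2 h1
  · rw [← dist_eq_norm]; exact hq2

lemma rho_le : ∃ C : ℝ, 0 < C ∧ ∀ z ∈ S.Ω, -S.ρ z ≤ C * S.δ z := by
  obtain ⟨R, -, hR⟩ := S.exists_radius
  obtain ⟨C, hC, hl⟩ := S.lip R
  refine ⟨C, hC, fun z hz => ?_⟩
  obtain ⟨q, hq, hq2⟩ := S.nearest hz
  have := (hl q z (hR q hq.le) (hR z (S.mem_iff.mp hz).le)).2.2.1
  rw [hq, sub_zero, ← hq2] at this
  exact (neg_le_abs _).trans this

lemma delta_le : ∃ C : ℝ, 0 < C ∧ ∀ z ∈ S.Ω, S.δ z ≤ C * -S.ρ z := by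
  obtain ⟨R, hR1, hR⟩ := S.exists_radius
  obtain ⟨d, C, hd, hC, hN⟩ := S.normal
  obtain ⟨T, hT, ht⟩ := S.taylor R
  obtain ⟨p, hp⟩ := S.hne
  set e := min d (min (1 / (2 * C)) (1 / (4 * T * C ^ 2))) with he
  have he0 : 0 < e := by positivity
  refine ⟨2 * C + 2 * R / e, by positivity, fun z hz => ?_⟩
  have h0 : 0 < -S.ρ z := neg_pos.mpr (S.mem_iff.mp hz)
  by_cases h : e ≤ -S.ρ z
  · have h1 := S.delta_le_dist (z := z) hp.ge
    have h2 := norm_sub_le z p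
    have h3 := hR z (by linarith)
    have h4 := hR p hp.le
    have h5 : 2 * R ≤ 2 * R / e * -S.ρ z := by
      rw [div_mul_eq_mul_div, le_div_iff₀ he0]
      gcongr
    nlinarith
  · push Not at h
    set s := -S.ρ z with hs
    have e1 : s ≤ d := h.le.trans (min_le_left _ _)
    have e2 : s ≤ 1 / (2 * C) := h.le.trans ((min_le_right _ _).trans (min_le_left _ _))
    have e3 : s ≤ 1 / (4 * T * C ^ 2) := h.le.trans ((min_le_right _ _).trans (min_le_right _ _))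
    rw [le_div_iff₀ (by positivity)] at e2 e3
    obtain ⟨-, N, hN1, hN2⟩ := hN z (by linarith) (by linarith)
    have n1 : ‖(2 * s) • N‖ ≤ 2 * s * C := by
      rw [norm_smul, Real.norm_of_nonneg (by positivity)]
      gcongr
    have t1 := ht z ((2 * s) • N) (hR z (by linarith)) (by nlinarith)
    have t2 : fderiv ℝ S.ρ z ((2 * s) • N) = 2 * s := by
      rw [map_smul, ← cx_re, hN1]; simp
    have t3 : T * ‖(2 * s) • N‖ ^ 2 ≤ s := by
      calc _ ≤ T * (2 * s * C) ^ 2 := by gcongr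
        _ = s * (s * (4 * T * C ^ 2)) := by ring
        _ ≤ s * 1 := by gcongr
        _ = s := mul_one s
    have t4 : 0 ≤ S.ρ (z + (2 * s) • N) := by
      have := (abs_le.mp t1).1
      linarith
    have t5 := S.delta_le_dist (z := z) t4
    rw [sub_add_cancel_left, norm_neg] at t5
    have : 0 ≤ 2 * R / e * s := by positivity
    nlinarith

end St

end Pool.Agent.H809Z.Ball
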