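import Mathlib

open scoped Topology
open Filter Metric Set

namespace Pool.Agent.H809Z.Ball

/-- Schwarz lemma for functions with positive real part -/
lemma schwarz_re {Q : ℂ → ℂ} {c x : ℂ} {R : ℝ} (hQ : DifferentiableOn ℂ Q (ball c R))
    (hpos : ∀ y ∈ ball c R, 0 < (Q y).re) (hx : x ∈ ball c R) :
    ‖Q x - Q c‖ ≤ ‖x - c‖ / R * ‖Q x + (starRingEnd ℂ) (Q c)‖ := by
  have hR : 0 < R := pos_of_mem_ball hx
  have hc : 0 < (Q c).re := hpos c (mem_ball_self hR)
  have hne : ∀ y ∈ ball c R, Q y + (starRingEnd ℂ) (Q c) ≠ 0 := by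
    intro y hy h
    have := congrArg Complex.re h
    simp at this
    linarith [hpos y hy]
  set W : ℂ → ℂ := fun y => (Q y - Q c) / (Q y + (starRingEnd ℂ) (Q c)) with hW
  have hWd : DifferentiableOn ℂ W (ball c R) :=
    (hQ.sub_const _).div (hQ.add_const _) hne
  have hW0 : W c = 0 := by simp [hW]
  have hmaps : MapsTo W (ball c R) (closedBall (W c) 1) := by
    intro y hy
    rw [hW0, mem_closedBall_zero_iff, hW]
    simp only [norm_div]
    rw [div_le_one (norm_pos_iff.mpr (hne y hy))]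
    apply le_of_sq_le_sq _ (norm_nonneg _) |>.trans le_rfl
    rw [Complex.sq_norm, Complex.sq_norm, Complex.normSq_apply, Complex.normSq_apply]
    simp
    nlinarith [mul_pos (hpos y hy) hc]
  have h := Complex.dist_le_div_mul_dist_of_mapsTo_ball hWd hmaps hx
  rw [hW0, dist_zero_right, dist_eq_norm, hW] at h
  simp only [norm_div] at h
  rw [div_le_iff₀ (norm_pos_iff.mpr (hne x hx))] at h
  calc _ ≤ 1 / R * ‖x - c‖ * ‖Q x + (starRingEnd ℂ) (Q c)‖ := h
    _ = _ := by ring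

lemma harnack_lower' {Q : ℂ → ℂ} {c x : ℂ} {R : ℝ} (hQ : DifferentiableOn ℂ Q (ball c R))
    (hpos : ∀ y ∈ ball c R, 0 < (Q y).re) (hx : x ∈ ball c R) :
    (1 - (‖x - c‖ / R) ^ 2) / 4 * (Q c).re ≤ (Q x).re := by
  have hR : 0 < R := pos_of_mem_ball hx
  have hc : 0 < (Q c).re := hpos c (mem_ball_self hR)
  have hx' : 0 < (Q x).re := hpos x hx
  have h := schwarz_re hQ hpos hx
  set t := ‖x - c‖ / R with ht
  have ht0 : 0 ≤ t := by positivity
  have ht1 : t ≤ 1 := by
    rw [ht, div_le_one hR, ← dist_eq_norm]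
    exact (mem_ball.mp hx).le
  have h2 := pow_le_pow_left₀ (norm_nonneg _) h 2
  rw [mul_pow, Complex.sq_norm, Complex.sq_norm, Complex.normSq_apply, Complex.normSq_apply] at h2
  simp only [Complex.sub_re, Complex.sub_im, Complex.add_re, Complex.add_im, Complex.conj_re,
    Complex.conj_im] at h2
  set a := (Q x).re
  set b := (Q c).re
  set d := ((Q x).im - (Q c).im) with hd
  have e : (Q x).im + -(Q c).im = d := by rw [hd]; ring
  rw [e] at h2
  have ht2 : 0 ≤ 1 - t ^ 2 := by nlinarith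
  have h3 : (1 - t ^ 2) * (b * b) ≤ 4 * a * b := by
    nlinarith [mul_nonneg ht2 (mul_self_nonneg d), mul_nonneg ht2 (mul_pos hx' hx').le,
      mul_nonneg ht2 (mul_pos hx' hc).le]
  by_contra hcon
  push Not at hcon
  nlinarith

/-- Harnack inequality, lower bound -/
lemma harnack_lower {Q : ℂ → ℂ} {c x : ℂ} {R : ℝ} (hQ : DifferentiableOn ℂ Q (ball c R))
    (hpos : ∀ y ∈ ball c R, 0 ≤ (Q y).re) (hx : x ∈ ball c R) :
    (1 - (‖x - c‖ / R) ^ 2) / 4 * (Q c).re ≤ (Q x).re := by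
  apply le_of_forall_pos_le_add
  intro ε hε
  have h := harnack_lower' (Q := fun y => Q y + ε) (hQ.add_const _)
    (fun y hy => by simp; linarith [hpos y hy]) hx
  simp only [Complex.add_re, Complex.ofReal_re] at h
  have hR : 0 < R := pos_of_mem_ball hx
  have ht1 : ‖x - c‖ / R ≤ 1 := by
    rw [div_le_one hR, ← dist_eq_norm]
    exact (mem_ball.mp hx).le
  have ht0 : 0 ≤ ‖x - c‖ / R := by positivity
  have ht2 : 0 ≤ 1 - (‖x - c‖ / R) ^ 2 := by nlinarith
  nlinarith [mul_nonneg ht2 hε.le]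

/-- Harnack inequality, upper bound -/
lemma harnack_upper {Q : ℂ → ℂ} {c x : ℂ} {R : ℝ} (hQ : DifferentiableOn ℂ Q (ball c R))
    (hpos : ∀ y ∈ ball c R, 0 < (Q y).re) (hR : 0 < R) (hx : ‖x - c‖ ≤ R / 2) :
    ‖Q x - Q c‖ ≤ 2 * (Q c).re := by
  have hx' : x ∈ ball c R := by rw [mem_ball, dist_eq_norm]; linarith
  have h := schwarz_re hQ hpos hx'
  have hc : 0 < (Q c).re := hpos c (mem_ball_self hR)
  have h1 : ‖x - c‖ / R ≤ 1 / 2 := by rw [div_le_iff₀ hR]; linarith
  have h2 : ‖Q x + (starRingEnd ℂ) (Q c)‖ ≤ ‖Q x - Q c‖ + 2 * (Q c).re := by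
    have e : Q x + (starRingEnd ℂ) (Q c) = (Q x - Q c) + ((2 * (Q c).re : ℝ) : ℂ) := by
      rw [← Complex.add_conj]; ring
    rw [e]
    refine (norm_add_le _ _).trans ?_
    rw [Complex.norm_real, Real.norm_of_nonneg (by positivity)]
  have h3 : ‖x - c‖ / R * ‖Q x + (starRingEnd ℂ) (Q c)‖ ≤
      1 / 2 * (‖Q x - Q c‖ + 2 * (Q c).re) := by gcongr
  linarith

/-- Harnack inequality for the logarithm of a zero free bounded function -/
lemma log_harnack {U : ℂ → ℂ} {c x : ℂ} {R B : ℝ} (hU : DifferentiableOn ℂ U (ball c R))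
    (hne : ∀ y ∈ ball c R, U y ≠ 0) (hB : ∀ y ∈ ball c R, ‖U y‖ ≤ B) (hR : 0 < R)
    (hx : ‖x - c‖ ≤ R / 2) :
    3 / 16 * (Real.log B - Real.log ‖U c‖) ≤ Real.log B - Real.log ‖U x‖ := by
  have hx' : x ∈ ball c R := by rw [mem_ball, dist_eq_norm]; linarith
  have hharm : InnerProductSpace.HarmonicOnNhd (fun y => Real.log ‖U y‖) (ball c R) := by
    intro y hy
    exact (hU.analyticOnNhd isOpen_ball y hy).harmonicAt_log_norm (hne y hy)
  obtain ⟨F, hF, hF2⟩ := hharm.exists_analyticOnNhd_ball_re_eq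
  have hre : ∀ y ∈ ball c R, ((Real.log B : ℂ) - F y).re = Real.log B - Real.log ‖U y‖ := by
    intro y hy
    have := hF2 hy
    simp only at this
    rw [Complex.sub_re, Complex.ofReal_re, this]
  have hpos : ∀ y ∈ ball c R, 0 ≤ Real.log B - Real.log ‖U y‖ := fun y hy =>
    sub_nonneg.mpr (Real.log_le_log (norm_pos_iff.mpr (hne y hy)) (hB y hy))
  have h := harnack_lower (Q := fun y => (Real.log B : ℂ) - F y)
    (hF.differentiableOn.const_sub _) (fun y hy => by rw [hre y hy]; exact hpos y hy) hx'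
  rw [hre x hx', hre c (mem_ball_self hR)] at h
  refine le_trans (mul_le_mul_of_nonneg_right ?_ (hpos c (mem_ball_self hR))) h
  have h1 : ‖x - c‖ / R ≤ 1 / 2 := by rw [div_le_iff₀ hR]; linarith
  have h0 : 0 ≤ ‖x - c‖ / R := by positivity
  nlinarith

/-- Harnack chain along `[0,1]` -/
lemma log_chain {U : ℂ → ℂ} {B : ℝ} {K : ℕ} (hK : 0 < K)
    (h : ∀ t ∈ Icc (0 : ℝ) 1, ∀ y ∈ ball (t : ℂ) (2 / K),
      DifferentiableAt ℂ U y ∧ U y ≠ 0 ∧ ‖U y‖ ≤ B) :
    (3 / 16) ^ K * (Real.log B - Real.log ‖U 0‖) ≤ Real.log B - Real.log ‖U 1‖ := by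
  have hK' : (0 : ℝ) < K := by exact_mod_cast hK
  have key : ∀ i : ℕ, i ≤ K → (3 / 16) ^ i * (Real.log B - Real.log ‖U 0‖) ≤
      Real.log B - Real.log ‖U (((i : ℝ) / K : ℝ) : ℂ)‖ := by
    intro i
    induction i with
    | zero => intro _; simp
    | succ i ih =>
      intro hi
      have h1 := ih (by omega)
      have hi' : (i : ℝ) + 1 ≤ K := by exact_mod_cast hi
      have ht : ((i : ℝ) / K) ∈ Icc (0 : ℝ) 1 :=
        ⟨by positivity, by rw [div_le_one hK']; linarith⟩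
      have h2 := log_harnack (U := U) (c := (((i : ℝ) / K : ℝ) : ℂ))
        (x := ((((i + 1 : ℕ) : ℝ) / K : ℝ) : ℂ)) (R := 2 / K) (B := B)
        (fun y hy => (h _ ht y hy).1.differentiableWithinAt) (fun y hy => (h _ ht y hy).2.1)
        (fun y hy => (h _ ht y hy).2.2) (by positivity) (by
          rw [← Complex.ofReal_sub, Complex.norm_real]
          have : (((i + 1 : ℕ) : ℝ) / K - (i : ℝ) / K) = 1 / K := by push_cast; ring
          rw [this, Real.norm_of_nonneg (by positivity)]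
          apply le_of_eq; ring)
      calc (3 / 16 : ℝ) ^ (i + 1) * (Real.log B - Real.log ‖U 0‖)
          = 3 / 16 * ((3 / 16) ^ i * (Real.log B - Real.log ‖U 0‖)) := by ring
        _ ≤ _ := le_trans (by gcongr) h2
  have := key K le_rfl
  rwa [div_self hK'.ne', Complex.ofReal_one] at this

/-- growth of polynomials of bounded degree -/
lemma poly_growth (M : ℕ) : ∃ C : ℝ, 0 ≤ C ∧ ∀ (e : ℕ → ℂ) (s E : ℝ), 0 < s →
    (∀ τ : ℂ, ‖τ‖ < s / 2 → ‖∑ i ∈ Finset.range M, e i * τ ^ i‖ ≤ E) →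
    ‖∑ i ∈ Finset.range M, e i * (s : ℂ) ^ i‖ ≤ C * E := by
  induction M with
  | zero => exact ⟨0, le_rfl, fun _ _ _ _ _ => by simp⟩
  | succ M ih =>
    obtain ⟨C, hC, ih⟩ := ih
    refine ⟨1 + 4 * C, by positivity, ?_⟩
    intro e s E hs h
    have hP : ∀ τ : ℂ, ∑ i ∈ Finset.range (M + 1), e i * τ ^ i =
        e 0 + τ * ∑ i ∈ Finset.range M, e (i + 1) * τ ^ i := by
      intro τ
      rw [Finset.sum_range_succ', Finset.mul_sum, add_comm]
      simp only [pow_zero, mul_one]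
      congr 1
      exact Finset.sum_congr rfl fun i _ => by ring
    have h0 : ‖e 0‖ ≤ E := by
      have := h 0 (by simpa using hs)
      rwa [hP, zero_mul, add_zero] at this
    set P₁ : ℂ → ℂ := fun τ => ∑ i ∈ Finset.range M, e (i + 1) * τ ^ i with hP₁
    have hd : Differentiable ℂ P₁ := by
      rw [hP₁]; fun_prop
    have hd2 : DifferentiableOn ℂ (fun τ => τ * P₁ τ) (ball 0 (s / 2)) :=
      (differentiable_id.mul hd).differentiableOn
    have hmaps : MapsTo (fun τ => τ * P₁ τ) (ball 0 (s / 2))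
        (closedBall ((fun τ => τ * P₁ τ) 0) (2 * E)) := by
      intro τ hτ
      simp only [zero_mul, mem_closedBall_zero_iff]
      have h1 := h τ (mem_ball_zero_iff.mp hτ)
      rw [hP] at h1
      calc ‖τ * P₁ τ‖ = ‖(e 0 + τ * P₁ τ) - e 0‖ := by congr 1; ring
        _ ≤ ‖e 0 + τ * P₁ τ‖ + ‖e 0‖ := norm_sub_le _ _
        _ ≤ 2 * E := by linarith
    have hb : ∀ τ : ℂ, ‖τ‖ < s / 2 → ‖P₁ τ‖ ≤ 4 * E / s := by
      have hb' : ∀ τ : ℂ, ‖τ‖ < s / 2 → τ ≠ 0 → ‖P₁ τ‖ ≤ 4 * E / s := by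
        intro τ hτ hτ0
        have h1 := Complex.dist_le_div_mul_dist_of_mapsTo_ball hd2 hmaps (mem_ball_zero_iff.mpr hτ)
        simp only [zero_mul, dist_zero_right, norm_mul] at h1
        have h2 : 0 < ‖τ‖ := norm_pos_iff.mpr hτ0
        have h3 : 2 * E / (s / 2) = 4 * E / s := by field_simp; ring
        rw [h3, mul_comm] at h1
        exact le_of_mul_le_mul_right h1 h2
      intro τ hτ
      by_cases hτ0 : τ = 0
      · subst hτ0
        have h1 : Tendsto (fun τ => ‖P₁ τ‖) (𝓝[≠] 0) (𝓝 ‖P₁ 0‖) :=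
          (hd.continuous.norm.tendsto 0).mono_left nhdsWithin_le_nhds
        apply le_of_tendsto h1
        filter_upwards [mem_nhdsWithin_of_mem_nhds (ball_mem_nhds (0 : ℂ) (half_pos hs)),
          self_mem_nhdsWithin] with τ h2 h3
        exact hb' τ (mem_ball_zero_iff.mp h2) h3
      · exact hb' τ hτ hτ0
    have h4 := ih (fun i => e (i + 1)) s _ hs hb
    rw [hP]
    calc _ ≤ ‖e 0‖ + ‖(s : ℂ) * P₁ s‖ := norm_add_le _ _
      _ ≤ E + s * (C * (4 * E / s)) := by
          rw [norm_mul, Complex.norm_real, Real.norm_of_nonneg hs.le]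
          gcongr
      _ = (1 + 4 * C) * E := by field_simp

/-- low order coefficients of a polynomial that is small along a ray vanish -/
lemma low_coeff (M : ℕ) : ∀ (e : ℕ → ℂ) (m C : ℝ),
    (∀ᶠ t : ℝ in 𝓝[>] 0, ‖∑ i ∈ Finset.range M, e i * (-(t : ℂ)) ^ i‖ ≤ C * t ^ m) →
    ∀ i < M, (i : ℝ) < m → e i = 0 := by
  induction M with
  | zero => intro _ _ _ _ i hi; omega
  | succ M ih =>
    intro e m C h i hi him
    have hP : ∀ τ : ℂ, ∑ i ∈ Finset.range (M + 1), e i * τ ^ i =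
        e 0 + τ * ∑ i ∈ Finset.range M, e (i + 1) * τ ^ i := by
      intro τ
      rw [Finset.sum_range_succ', Finset.mul_sum, add_comm]
      simp only [pow_zero, mul_one]
      congr 1
      exact Finset.sum_congr rfl fun i _ => by ring
    have hm : 0 < m := lt_of_le_of_lt (Nat.cast_nonneg i) him
    have h0 : e 0 = 0 := by
      have h1 : Tendsto (fun t : ℝ => ‖∑ i ∈ Finset.range (M + 1), e i * (-(t : ℂ)) ^ i‖) (𝓝[>] 0)
          (𝓝 ‖e 0‖) := by
        apply Tendsto.mono_left _ nhdsWithin_le_nhds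
        apply Continuous.tendsto' (by fun_prop)
        rw [hP]; simp
      have h2 : Tendsto (fun t : ℝ => C * t ^ m) (𝓝[>] 0) (𝓝 0) := by
        apply Tendsto.mono_left _ nhdsWithin_le_nhds
        have h3 := (Real.continuousAt_rpow_const 0 m (Or.inr hm.le)).tendsto.const_mul C
        rwa [Real.zero_rpow hm.ne', mul_zero] at h3
      exact norm_le_zero_iff.mp (le_of_tendsto_of_tendsto h1 h2 h)
    rcases i with _ | i
    · exact h0
    · apply ih (fun i => e (i + 1)) (m - 1) C _ i (by omega) (by push_cast at him; linarith)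
      filter_upwards [h, self_mem_nhdsWithin] with t ht ht0
      have ht0' : (0 : ℝ) < t := ht0
      rw [hP, h0, zero_add, norm_mul, norm_neg, Complex.norm_real,
        Real.norm_of_nonneg ht0'.le] at ht
      rw [Real.rpow_sub_one ht0'.ne', ← mul_div_assoc, le_div_iff₀ ht0', mul_comm]
      exact ht

end Pool.Agent.H809Z.Ball
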