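import Pool.Agent.H809Z.Ball.Vol
import Pool.Agent.H809Z.Ball.OneVar

open scoped Topology ENNReal InnerProductSpace
open Filter Metric Set MeasureTheory

namespace Pool.Agent.H809Z.Ball

/-- the data of the problem -/
structure St (n : ℕ) where
  Ω : Set (En n)
  φ : En n → En n
  F : En n → En n
  ρ : En n → ℝ
  bdd : Bornology.IsBounded Ω
  hφ : DifferentiableOn ℂ φ (ball 0 1)
  hF : DifferentiableOn ℂ F Ω
  mφ : MapsTo φ (ball 0 1) Ω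
  mF : MapsTo F Ω (ball 0 1)
  Fφ : ∀ w ∈ ball (0 : En n) 1, F (φ w) = w
  φF : ∀ z ∈ Ω, φ (F z) = z
  hρ : ContDiff ℝ 2 ρ
  hΩ : Ω = {z | ρ z < 0}
  hd : ∀ z, ρ z = 0 → fderiv ℝ ρ z ≠ 0
  hne : ∃ p, ρ p = 0

variable {n : ℕ}

/-- complex Jacobian determinant -/
noncomputable def jac (f : En n → En n) (w : En n) : ℂ := (fderiv ℂ f w).det

/-- four times the Levi form -/
noncomputable def levi (ρ : En n → ℝ) (p w : En n) : ℝ :=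
  fderiv ℝ (fderiv ℝ ρ) p w w + fderiv ℝ (fderiv ℝ ρ) p (Complex.I • w) (Complex.I • w)

/-- complex tangent vectors to the level set of `ρ` -/
def CTan (ρ : En n → ℝ) (p w : En n) : Prop :=
  fderiv ℝ ρ p w = 0 ∧ fderiv ℝ ρ p (Complex.I • w) = 0

/-- the Levi form is nonnegative on the boundary -/
def LeviNonneg (ρ : En n → ℝ) : Prop := ∀ p, ρ p = 0 → ∀ w, CTan ρ p w → 0 ≤ levi ρ p w

/-- the Bergman kernel of the ball up to a constant -/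
noncomputable def ker (a w : En n) : ℂ := ((1 - ⟪w, a⟫_ℂ) ^ (n + 1))⁻¹

/-- the Bergman integral -/
noncomputable def bT (μ : En n → ℂ) (a : En n) : ℂ := ∫ w in ball (0 : En n) 1, μ w * ker a w

/-- holomorphic directional derivative of a real differentiable function -/
noncomputable def dz (g : En n → ℂ) (z v : En n) : ℂ :=
  (fderiv ℝ g z v - Complex.I * fderiv ℝ g z (Complex.I • v)) / 2

/-- integrals of powers of the non-isotropic distance -/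
def IntNear (n : ℕ) : Prop := ∀ a : ℝ, a < n + 1 → ∃ C : ℝ, 0 ≤ C ∧ ∀ x : En n, ‖x‖ ≤ 1 →
  ∀ r : ℝ, 0 < r → ∫⁻ w in {w : En n | ‖w‖ < 1 ∧ dd x w < r}, ENNReal.ofReal (dd x w ^ (-a)) ≤
    ENNReal.ofReal (C * r ^ ((n : ℝ) + 1 - a))

/-- integration by parts against antiholomorphic functions -/
def IBP (n : ℕ) : Prop := ∀ (ρ : En n → ℝ) (g h : En n → ℂ) (v : En n), ContDiff ℝ 1 ρ →
  Bornology.IsBounded {z | ρ z < 0} → (∀ z ∈ closure {z | ρ z < 0}, ContDiffAt ℝ 1 g z) →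
  DifferentiableOn ℂ h {z | ρ z < 0} → IntegrableOn h {z | ρ z < 0} →
  ∫ z in {z | ρ z < 0}, (dz (fun y => (ρ y : ℂ)) z v * g z + (ρ z : ℂ) * dz g z v) *
    (starRingEnd ℂ) (h z) = 0

/-- the reproducing formula of the ball -/
def Repro (n : ℕ) : Prop := ∀ f : En n → ℂ, DifferentiableOn ℂ f (ball 0 1) →
  IntegrableOn f (ball 0 1) → ∀ a ∈ ball (0 : En n) 1,
    bT f a = ((volume (ball (0 : En n) 1)).toReal : ℂ) * f a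

/-- `G` is the Bergman integral of a density bounded by `‖j‖` times the depth -/
def Rep (j G : En n → ℂ) : Prop := ∃ (C : ℝ) (μ : En n → ℂ), 0 ≤ C ∧
  AEStronglyMeasurable μ (volume.restrict (ball (0 : En n) 1)) ∧
  (∀ w ∈ ball (0 : En n) 1, ‖μ w‖ ≤ C * ‖j w‖ * (1 - ‖w‖)) ∧
  ∀ a ∈ ball (0 : En n) 1, G a = bT μ a

/-- expansion of Bergman integrals along complex lines -/
def LemE (n : ℕ) : Prop := ∀ (M : ℕ) (m γ : ℝ), 0 ≤ m → (M : ℝ) - 1 < m + 1 → 0 < γ → γ ≤ M →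
  γ < m + 1 → ∃ C' : ℝ, 0 ≤ C' ∧ ∀ (μ : En n → ℂ) (C : ℝ) (x v : En n), 0 ≤ C →
    AEStronglyMeasurable μ (volume.restrict (ball (0 : En n) 1)) → ‖x‖ ≤ 1 → ‖v‖ ≤ 1 →
    (∀ y ∈ ball (0 : En n) 1, ‖μ y‖ ≤ C * (1 - ‖y‖) * dd x y ^ m) →
    ∃ e : ℕ → ℂ, ∀ τ : ℂ, ‖τ‖ ≤ 2 → ‖x + τ • v‖ ≤ 1 →
      ‖bT μ (x + τ • v) - ∑ i ∈ Finset.range M, e i * τ ^ i‖ ≤ C' * C * ‖τ‖ ^ γ

/-- radial gain of vanishing order spreads to non-isotropic balls -/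
def Improve (n : ℕ) : Prop := ∃ κ : ℝ, 0 < κ ∧ ∀ (j : En n → ℂ) (ζ : En n) (m C : ℝ), ‖ζ‖ = 1 →
  DifferentiableOn ℂ j (ball 0 1) → (∀ w ∈ ball (0 : En n) 1, j w ≠ 0) → Rep j j → 0 ≤ m →
  (∀ w ∈ ball (0 : En n) 1, ‖j w‖ ≤ C * dd ζ w ^ m) →
  (∀ s ∈ Ioc (0 : ℝ) 1, ‖j (((1 - s : ℝ) : ℂ) • ζ)‖ ≤ C * s ^ (m + 1 / 8)) →
  ∃ C' : ℝ, ∀ w ∈ ball (0 : En n) 1, ‖j w‖ ≤ C' * dd ζ w ^ (m + κ)

/-- four point super-mean inequality in the viscosity sense -/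
def Visc (U : ℂ → ℝ) (x : ℂ) : Prop := ∀ ε : ℝ, 0 < ε → ∀ᶠ t : ℝ in 𝓝[>] 0,
  U (x + t) + U (x + t * Complex.I) + U (x - t) + U (x - t * Complex.I) ≤ 4 * U x + ε * t ^ 2

/-- distance to the complement -/
noncomputable def St.δ (S : St n) (z : En n) : ℝ := infDist z S.Ωᶜ

/-- the Diederich-Fornaess function -/
noncomputable def St.Psi (S : St n) (η L : ℝ) (p z : En n) : ℝ :=
  Real.exp (η * (Real.log (S.δ z) - L * ‖z - p‖ ^ 2))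

/-- plurisuperharmonicity of the Diederich-Fornaess function near the boundary -/
def St.ViscPsi (S : St n) : Prop := ∃ L δ₁ : ℝ, 0 < L ∧ 0 < δ₁ ∧ ∀ η : ℝ, 0 < η → η ≤ 3 / 4 →
  ∀ (p : En n) (g : ℂ → En n) (x : ℂ), AnalyticAt ℂ g x → g x ∈ S.Ω → S.δ (g x) ≤ δ₁ →
    40 * η * L * ‖g x - p‖ ^ 2 ≤ 1 → Visc (fun y => S.Psi η L p (g y)) x

/-- Hopf lemma -/
def St.Hopf (S : St n) : Prop :=
  ∃ C : ℝ, 0 ≤ C ∧ ∀ w ∈ ball (0 : En n) 1, -S.ρ (S.φ w) ≤ C * (1 - ‖w‖)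

/-- global lower bound for the boundary distance -/
def St.DFGlobal (S : St n) : Prop :=
  ∃ c K : ℝ, 0 < c ∧ 0 ≤ K ∧ ∀ w ∈ ball (0 : En n) 1, c * (1 - ‖w‖) ^ K ≤ -S.ρ (S.φ w)

/-- local lower bound for the boundary distance along discs -/
def St.DFLocal (S : St n) : Prop := ∀ (p : En n) (g : ℂ → En n), S.ρ p = 0 →
  DifferentiableOn ℂ g (ball 0 1) → MapsTo g (ball 0 1) S.Ω → Tendsto g (𝓝[ball 0 1] 1) (𝓝 p) →
  ∃ c : ℝ, 0 < c ∧ ∀ᶠ t : ℝ in 𝓝[<] 1, c * (1 - t) ^ (4 / 3 : ℝ) ≤ -S.ρ (g t)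

/-- the estimate of the derivative of `F` along analytic discs -/
def St.DiscEst (S : St n) : Prop := ∀ (g : ℂ → En n) (R : ℝ) (X : En n), 0 < R →
  DifferentiableOn ℂ g (ball 0 R) → MapsTo g (ball 0 R) S.Ω → HasDerivAt g X 0 →
  ‖⟪S.F (g 0), fderiv ℂ S.F (g 0) X⟫_ℂ‖ ≤ 8 * (1 - ‖S.F (g 0)‖) / R ∧
    ‖fderiv ℂ S.F (g 0) X‖ ≤ 8 * Real.sqrt (1 - ‖S.F (g 0)‖) / R

/-- volume comparison -/
def St.StepA (S : St n) : Prop := ∃ C : ℝ, ∀ z ∈ S.Ω,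
  ‖jac S.F z‖ ^ 2 * (-S.ρ z) ^ (n + 1) ≤ C * (1 - ‖S.F z‖) ^ (n + 1)

/-- volume comparison at a weakly pseudoconvex point -/
def St.StepW (S : St n) : Prop := ∀ p V : En n, S.ρ p = 0 → V ≠ 0 → CTan S.ρ p V →
  levi S.ρ p V ≤ 0 → ∃ C : ℝ, ∀ M : ℝ, 1 ≤ M → ∀ᶠ z in 𝓝[S.Ω] p,
    M ^ 2 * ‖jac S.F z‖ ^ 2 * (-S.ρ z) ^ (n + 1) ≤ C * (1 - ‖S.F z‖) ^ (n + 1)

end Pool.Agent.H809Z.Ball
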