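import Pool.Agent.H809Z.Ball.Basic

open scoped Topology ENNReal InnerProductSpace
open Filter Metric Set MeasureTheory Asymptotics

namespace Pool.Agent.H809Z.Ball

open Pool.Agent.H809Z.Berg (taylor2 bilin_littleO lin_littleO)

variable {n : ℕ}

namespace Disc

/-- the holomorphic second order coefficient -/
noncomputable def alpha (H : En n →L[ℝ] En n →L[ℝ] ℝ) (v : En n) : ℂ :=
  ⟨-(H v v - H (Complex.I • v) (Complex.I • v)) / 4,
    (H v (Complex.I • v) + H (Complex.I • v) v) / 4⟩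

lemma alpha_levi (H : En n →L[ℝ] En n →L[ℝ] ℝ) (v : En n) (x : ℂ) :
    (alpha H v * x ^ 2).re + 1 / 2 * H (x • v) (x • v) =
      (H v v + H (Complex.I • v) (Complex.I • v)) / 4 * ‖x‖ ^ 2 := by
  rw [smul_decomp x v, Complex.sq_norm, Complex.normSq_apply]
  simp only [map_add, map_smul, add_apply, smul_apply, smul_eq_mul, alpha, Complex.mul_re, sq,
    Complex.mul_im]
  ring

lemma continuous_cx (S : St n) (u : En n) : Continuous fun q => cx (fderiv ℝ S.ρ q) u := by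
  simp only [cx_apply]
  have h := S.contDiff_fderiv.continuous
  fun_prop

end Disc

open Disc

/-- analytic discs along which `ρ` grows like the Levi form -/
theorem St.disc (S : St n) {p V : En n} (hp : S.ρ p = 0) (hV : CTan S.ρ p V) {ε : ℝ} (hε : 0 < ε) :
    ∃ (r : ℝ) (Y : En n), 0 < r ∧ ∀ᶠ z in 𝓝 p, ∃ X : En n, ‖X - V‖ ≤ ε ∧ CTan S.ρ z X ∧
      ∀ x : ℂ, ‖x‖ ≤ r → S.ρ (z + (x • X + x ^ 2 • Y)) ≤
        S.ρ z + (levi S.ρ p V / 4 + ε) * ‖x‖ ^ 2 := by
  obtain ⟨N, hN, -⟩ := exists_normal (cx (fderiv ℝ S.ρ p))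
    (by rw [← norm_pos_iff, norm_cx]; exact norm_pos_iff.mpr (S.hd p hp))
  rw [ctan_iff] at hV
  set H := fderiv ℝ (fderiv ℝ S.ρ) p with hH
  set α := alpha H V with hα
  set β : En n → ℂ := fun q => -(cx (fderiv ℝ S.ρ q) V) / cx (fderiv ℝ S.ρ q) N with hβ
  have hβc : Tendsto β (𝓝 p) (𝓝 0) := by
    have h1 : ContinuousAt β p := (continuous_cx S V).continuousAt.neg.div
      (continuous_cx S N).continuousAt (by rw [hN]; exact one_ne_zero)
    have h2 : β p = 0 := by simp [hβ, hV]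
    rw [← h2]; exact h1
  have htan : ∀ᶠ q in 𝓝 p, cx (fderiv ℝ S.ρ q) (V + β q • N) = 0 := by
    have h1 : ∀ᶠ q in 𝓝 p, cx (fderiv ℝ S.ρ q) N ≠ 0 := by
      apply (continuous_cx S N).continuousAt.eventually_ne
      rw [hN]; exact one_ne_zero
    filter_upwards [h1] with q hq
    rw [map_add, map_smul, smul_eq_mul, hβ]
    field_simp
    ring
  set hh : En n × ℂ → En n := fun z => z.2 • (V + β z.1 • N) + z.2 ^ 2 • (α • N) with hhh
  have hfst : Tendsto (fun z : En n × ℂ => z.1) (𝓝 (p, 0)) (𝓝 p) :=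
    continuous_fst.tendsto' _ _ rfl
  have b1 : (fun z : En n × ℂ => z.2 • V) =O[𝓝 (p, 0)] fun z => ‖z.2‖ := by
    apply IsBigO.of_bound ‖V‖
    filter_upwards with z
    rw [norm_smul, mul_comm, norm_norm]
  have b2 : (fun z : En n × ℂ => hh z - z.2 • V) =o[𝓝 (p, 0)] fun z => ‖z.2‖ := by
    have e : (fun z : En n × ℂ => hh z - z.2 • V) = fun z => ((β z.1 + α * z.2) * z.2) • N := by
      funext z
      simp only [hhh]
      module
    rw [e]
    have h1 : Tendsto (fun z : En n × ℂ => β z.1 + α * z.2) (𝓝 (p, 0)) (𝓝 0) := by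
      have h2 : Tendsto (fun z : En n × ℂ => α * z.2) (𝓝 (p, 0)) (𝓝 0) :=
        Continuous.tendsto' (by fun_prop) _ _ (by simp)
      simpa using (hβc.comp hfst).add h2
    have h3 : (fun z : En n × ℂ => β z.1 + α * z.2) =o[𝓝 (p, 0)]
        fun _ => (1 : ℂ) := (isLittleO_one_iff ℂ).mpr h1
    have h4 := h3.mul_isBigO (isBigO_refl (fun z : En n × ℂ => z.2) (𝓝 (p, 0)))
    simp only [one_mul] at h4
    have h5 : (fun z : En n × ℂ => ((β z.1 + α * z.2) * z.2) • N) =O[𝓝 (p, 0)]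
        fun z => (β z.1 + α * z.2) * z.2 := by
      apply IsBigO.of_bound ‖N‖
      filter_upwards with z
      rw [norm_smul, mul_comm]
    exact (h5.trans_isLittleO h4).norm_right
  have b3 : hh =O[𝓝 (p, 0)] fun z => ‖z.2‖ := by
    have := b2.isBigO.add b1
    simpa using this
  have b4 : Tendsto hh (𝓝 (p, 0)) (𝓝 0) :=
    b3.trans_tendsto (Continuous.tendsto' (by fun_prop) _ _ (by simp))
  have b5 : (fun z : En n × ℂ => z.2 ^ 2 • (α • N)) =O[𝓝 (p, 0)] fun z => ‖z.2‖ ^ 2 := by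
    apply IsBigO.of_bound ‖α • N‖
    filter_upwards with z
    rw [norm_smul, norm_pow, norm_pow, norm_norm, mul_comm]
  have t1 := (taylor2 (p := p) S.hρ.contDiffAt).comp_tendsto (hfst.prodMk_nhds b4)
  have t1' := t1.trans_isBigO (b3.norm_left.pow 2)
  have t2 := bilin_littleO H b2 b1
  have hD : Tendsto (fun z : En n × ℂ => fderiv ℝ S.ρ z.1 - fderiv ℝ S.ρ p) (𝓝 (p, 0)) (𝓝 0) := by
    have := ((S.contDiff_fderiv.continuous.tendsto p).comp hfst).sub_const (fderiv ℝ S.ρ p)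
    simpa using this
  have t3 := lin_littleO hD b5
  have t4 := (t1'.add (t2.const_mul_left (1 / 2))).add t3
  have t5 : (fun z : En n × ℂ => S.ρ (z.1 + hh z) - S.ρ z.1 - levi S.ρ p V / 4 * ‖z.2‖ ^ 2)
      =o[𝓝 (p, 0)] fun z => ‖z.2‖ ^ 2 := by
    refine t4.congr' ?_ EventuallyEq.rfl
    filter_upwards [hfst.eventually htan] with z hz
    have e2 : fderiv ℝ S.ρ z.1 (hh z) = fderiv ℝ S.ρ z.1 (z.2 ^ 2 • (α • N)) := by
      simp only [hhh]
      rw [map_add, ← cx_re _ (z.2 • _), map_smul, hz]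
      simp
    have e3 : fderiv ℝ S.ρ p (z.2 ^ 2 • (α • N)) = (α * z.2 ^ 2).re := by
      rw [← cx_re, map_smul, map_smul, hN]
      rw [smul_eq_mul, smul_eq_mul, mul_one, mul_comm]
    have e4 := alpha_levi H V z.2
    simp only [Function.comp_apply, sub_apply]
    rw [e2, e3, levi, ← hH, ← e4]
    ring
  have t6 := t5.def hε
  rw [nhds_prod_eq] at t6
  obtain ⟨pa, hpa, pb, hpb, t7⟩ := eventually_prod_iff.mp t6
  obtain ⟨r, hr, t8⟩ := Metric.eventually_nhds_iff.mp hpb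
  refine ⟨r / 2, α • N, half_pos hr, ?_⟩
  have t9 : ∀ᶠ q in 𝓝 p, ‖β q • N‖ ≤ ε := by
    have h1 := (hβc.smul_const N).norm
    simp only [zero_smul, norm_zero] at h1
    exact h1.eventually (ge_mem_nhds hε)
  filter_upwards [hpa, htan, t9] with z h1 h2 h3
  refine ⟨V + β z • N, by rwa [add_sub_cancel_left], ctan_iff.mpr h2, fun x hx => ?_⟩
  have h4 := t7 h1 (t8 (y := x) (by rw [dist_zero_right]; linarith))
  simp only [hhh, norm_pow, norm_norm] at h4
  have h5 := (le_abs_self _).trans h4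
  linarith

/-- the Levi form is nonnegative -/
theorem St.leviNonneg (S : St n) : LeviNonneg S.ρ := by
  intro p hp V hV
  by_contra hneg
  push Not at hneg
  set ε := -levi S.ρ p V / 8 with hε
  have hε0 : 0 < ε := by linarith
  obtain ⟨r, Y, hr, h⟩ := S.disc hp hV hε0
  have e : levi S.ρ p V / 4 + ε = -ε := by rw [hε]; ring
  rw [e] at h
  obtain ⟨θ, hθ0, hθ, hF⟩ := S.F_bound (d := ε * r ^ 2) (by positivity)
  obtain ⟨d, hd, hφ⟩ := S.phi_bound hθ
  have h2 : ∀ᶠ z in 𝓝 p, -d < S.ρ z :=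
    (S.cont.tendsto p).eventually (lt_mem_nhds (by rw [hp]; linarith))
  obtain ⟨z, ⟨⟨X, -, -, h3⟩, h4⟩, hz⟩ := ((h.and h2).and_frequently
    (mem_closure_iff_frequently.mp (S.mem_closure hp))).exists
  have hz0 := S.mem_iff.mp hz
  have hin : ∀ x ∈ closedBall (0 : ℂ) r, z + (x • X + x ^ 2 • Y) ∈ S.Ω := by
    intro x hx
    rw [S.mem_iff]
    have := h3 x (mem_closedBall_zero_iff.mp hx)
    nlinarith [sq_nonneg ‖x‖]
  have hd2 : DifferentiableOn ℂ (fun x : ℂ => S.F (z + (x • X + x ^ 2 • Y))) (closedBall 0 r) :=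
    S.hF.comp (by fun_prop) hin
  have h5 := Complex.norm_le_of_forall_mem_frontier_norm_le (U := ball (0 : ℂ) r) (C := θ) (z := 0)
    (f := fun x : ℂ => S.F (z + (x • X + x ^ 2 • Y)))
    isBounded_ball (DifferentiableOn.diffContOnCl (by rwa [closure_ball _ hr.ne'])) (by
      intro x hx
      rw [frontier_ball _ hr.ne', mem_sphere_zero_iff_norm] at hx
      apply hF
      have := h3 x hx.le
      rw [hx] at this
      linarith) (subset_closure (mem_ball_self hr))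
  simp only [zero_smul, ne_eq, OfNat.ofNat_ne_zero, not_false_eq_true, zero_pow, add_zero] at h5
  have h6 := hφ _ h5
  rw [S.φF z hz] at h6
  linarith

/-- determinant bound -/
def St.DetBound (S : St n) : Prop := ∃ K : ℝ, ∀ z ∈ S.Ω, ∀ (A : En n →L[ℂ] En n) (B : ℝ),
  (∀ X : En n, ‖X‖ = 1 → ‖⟪S.F z, fderiv ℂ S.F z (A X)⟫_ℂ‖ ≤ B * (1 - ‖S.F z‖) ∧
    ‖fderiv ℂ S.F z (A X)‖ ≤ B * Real.sqrt (1 - ‖S.F z‖)) →
  ‖jac S.F z‖ ^ 2 * ‖A.det‖ ^ 2 ≤ K * B ^ (2 * n) * (1 - ‖S.F z‖) ^ (n + 1)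

/-- non-isotropic polydiscs near the boundary -/
lemma St.polydisc (S : St n) : ∃ d c : ℝ, 0 < d ∧ 0 < c ∧ ∀ z ∈ S.Ω, -S.ρ z ≤ d → ∃ N : En n,
    cx (fderiv ℝ S.ρ z) N = 1 ∧ ∀ X : En n, ‖X‖ = 1 → ∀ x ∈ ball (0 : ℂ) c,
      z + x • rk (Real.sqrt (-S.ρ z) : ℂ) (((Real.sqrt (-S.ρ z) : ℂ) - 1) • cx (fderiv ℝ S.ρ z))
        N X ∈ S.Ω := by
  obtain ⟨R, hR1, hR⟩ := S.exists_radius
  obtain ⟨d, C, hd, hC, hN⟩ := S.normal
  obtain ⟨T, hT, ht⟩ := S.taylor R
  set c := min (1 / (1 + C ^ 2)) (1 / (2 * (C + T * (1 + C ^ 2)))) with hc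
  have hc0 : 0 < c := by positivity
  have c1 : c ≤ 1 / (1 + C ^ 2) := min_le_left _ _
  have c2 : c ≤ 1 / (2 * (C + T * (1 + C ^ 2))) := min_le_right _ _
  rw [le_div_iff₀ (by positivity)] at c1 c2
  refine ⟨min d 1, c, by positivity, hc0, fun z hz hzd => ?_⟩
  have h0 : 0 < -S.ρ z := neg_pos.mpr (S.mem_iff.mp hz)
  obtain ⟨hν, N, hN1, hN2⟩ := hN z (by linarith [min_le_left d 1]) (by linarith)
  refine ⟨N, hN1, fun X hX x hx => ?_⟩
  rw [mem_ball_zero_iff] at hx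
  set ν := cx (fderiv ℝ S.ρ z) with hνd
  set q := Real.sqrt (-S.ρ z) with hq
  have hq0 : 0 < q := Real.sqrt_pos.mpr h0
  have hq2 : q ^ 2 = -S.ρ z := Real.sq_sqrt h0.le
  have hq1 : q ≤ 1 := by nlinarith [min_le_right d 1]
  have hνX : ‖ν X‖ ≤ C := by
    have := ν.le_opNorm X
    rw [hX, mul_one] at this
    linarith
  set Y := rk (q : ℂ) (((q : ℂ) - 1) • ν) N X with hY
  have n1 : ‖Y‖ ≤ q * (1 + C ^ 2) := by
    rw [hY, rk_apply, norm_smul, Complex.norm_real, Real.norm_of_nonneg hq0.le]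
    gcongr
    refine (norm_add_le _ _).trans ?_
    rw [hX, norm_smul, smul_apply, smul_eq_mul, norm_mul]
    have : ‖(q : ℂ) - 1‖ ≤ 1 := by
      rw [← Complex.ofReal_one, ← Complex.ofReal_sub, Complex.norm_real, Real.norm_eq_abs, abs_le]
      constructor <;> linarith
    have h2 : ‖(q : ℂ) - 1‖ * ‖ν X‖ * ‖N‖ ≤ 1 * C * C := by gcongr
    linarith
  have n2 : ν Y = (q : ℂ) ^ 2 * ν X := by
    rw [hY, rk_apply, map_smul, map_add, map_smul, hN1]
    simp only [smul_apply, smul_eq_mul]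
    ring
  have n3 : ‖x • Y‖ ≤ q * (‖x‖ * (1 + C ^ 2)) := by
    rw [norm_smul]
    calc _ ≤ ‖x‖ * (q * (1 + C ^ 2)) := by gcongr
      _ = _ := by ring
  have n4 : ‖x‖ * (1 + C ^ 2) ≤ 1 := le_trans (by gcongr) c1
  have n5 : 0 ≤ ‖x‖ * (1 + C ^ 2) := by positivity
  have t1 := ht z (x • Y) (hR z (by linarith)) (by nlinarith)
  have t2 : fderiv ℝ S.ρ z (x • Y) ≤ q ^ 2 * (c * C) := by
    rw [← cx_re, map_smul, ← hνd, n2]
    refine (Complex.re_le_norm _).trans ?_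
    rw [smul_eq_mul, norm_mul, norm_mul, norm_pow, Complex.norm_real, Real.norm_of_nonneg hq0.le]
    calc _ ≤ c * (q ^ 2 * C) := by gcongr
      _ = _ := by ring
  have t3 : T * ‖x • Y‖ ^ 2 ≤ q ^ 2 * (c * (T * (1 + C ^ 2))) := by
    calc _ ≤ T * (q * (‖x‖ * (1 + C ^ 2))) ^ 2 := by gcongr
      _ = q ^ 2 * (‖x‖ * (T * (1 + C ^ 2))) * (‖x‖ * (1 + C ^ 2)) := by ring
      _ ≤ q ^ 2 * (c * (T * (1 + C ^ 2))) * 1 := by gcongr
      _ = _ := mul_one _
  rw [S.mem_iff]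
  have := (abs_le.mp t1).2
  nlinarith

theorem St.stepW (S : St n) (hE : S.DiscEst) (hK : S.DetBound) : S.StepW := by
  intro p V hp hV0 hV hL
  obtain ⟨K, hK⟩ := hK
  obtain ⟨d, c, hd, hc, hpoly⟩ := S.polydisc
  have hVn : 0 < ‖V‖ := norm_pos_iff.mpr hV0
  refine ⟨K * (8 / c + 16 / ‖V‖) ^ (2 * n), fun M hM => ?_⟩
  set ε := min (‖V‖ / 2) (1 / (2 * M ^ 2)) with hε
  have hε0 : 0 < ε := by positivity
  have e1 : ε ≤ ‖V‖ / 2 := min_le_left _ _
  have e2 : ε ≤ 1 / (2 * M ^ 2) := min_le_right _ _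
  rw [le_div_iff₀ (by positivity)] at e2
  obtain ⟨r, Y, hr, h⟩ := S.disc hp hV hε0
  have h2 : ∀ᶠ z in 𝓝 p, -min d (r ^ 2 / M ^ 2) < S.ρ z :=
    (S.cont.tendsto p).eventually (lt_mem_nhds (by rw [hp]; simp only [Left.neg_neg_iff]; positivity))
  filter_upwards [mem_nhdsWithin_of_mem_nhds h, mem_nhdsWithin_of_mem_nhds h2,
    self_mem_nhdsWithin] with z ⟨X, hX1, hX2, hX3⟩ hz1 hz
  have h0 : 0 < -S.ρ z := neg_pos.mpr (S.mem_iff.mp hz)
  obtain ⟨N, hN1, hN2⟩ := hpoly z hz (by linarith [min_le_left d (r ^ 2 / M ^ 2)])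
  set ν := cx (fderiv ℝ S.ρ z) with hνd
  set q := Real.sqrt (-S.ρ z) with hq
  have hq0 : 0 < q := Real.sqrt_pos.mpr h0
  have hq2 : q ^ 2 = -S.ρ z := Real.sq_sqrt h0.le
  have hXn : ‖V‖ / 2 ≤ ‖X‖ := by
    have := norm_sub_norm_le V X
    rw [norm_sub_rev] at this
    linarith
  have hX0 : 0 < ‖X‖ := by linarith
  have hνX : ν X = 0 := ctan_iff.mp hX2
  set σ := 1 - ‖S.F z‖ with hσ
  have hσ0 : 0 < σ := sub_pos.mpr (mem_ball_zero_iff.mp (S.mF hz))
  have hMq : M * q ≤ r := by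
    apply le_of_sq_le_sq _ hr.le |>.trans le_rfl
    have : q ^ 2 ≤ r ^ 2 / M ^ 2 := by linarith [min_le_right d (r ^ 2 / M ^ 2)]
    rw [le_div_iff₀ (by positivity)] at this
    nlinarith
  have d1 := hE (fun x => z + (x • X + x ^ 2 • Y)) (M * q) X (by positivity) (by fun_prop) (by
      intro x hx
      rw [mem_ball_zero_iff] at hx
      rw [S.mem_iff]
      have h3 := hX3 x (by linarith)
      have h4 : ‖x‖ ^ 2 ≤ (M * q) ^ 2 := by gcongr
      have h5 : (levi S.ρ p V / 4 + ε) * ‖x‖ ^ 2 ≤ ε * (M * q) ^ 2 :=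
        mul_le_mul (by linarith) h4 (by positivity) hε0.le
      nlinarith) (by
      have a1 := (hasDerivAt_id (0 : ℂ)).smul_const X
      have a2 := (hasDerivAt_pow 2 (0 : ℂ)).smul_const Y
      simpa using (a1.add a2).const_add z)
  simp only [zero_smul, ne_eq, OfNat.ofNat_ne_zero, not_false_eq_true, zero_pow, add_zero] at d1
  set A₁ := rk (q : ℂ) (((q : ℂ) - 1) • ν) N with hA₁
  set μ : En n →L[ℂ] ℂ := ((((M - 1) / ‖X‖ ^ 2 : ℝ) : ℂ)) • innerSL ℂ X with hμ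
  set A₂ := rk 1 μ X with hA₂
  have k1 := hK z hz (A₁.comp A₂) (8 / c + 16 / ‖V‖) (by
    intro Z hZ
    have d2 := hE (fun x => z + x • A₁ Z) c (A₁ Z) hc (by fun_prop) (hN2 Z hZ) (by
      simpa using ((hasDerivAt_id (0 : ℂ)).smul_const (A₁ Z)).const_add z)
    simp only [zero_smul, add_zero] at d2
    have e3 : A₁.comp A₂ Z = A₁ Z + (μ Z * q) • X := by
      rw [ContinuousLinearMap.comp_apply, hA₂, rk_apply 1, one_smul, map_add, map_smul]
      congr 1
      rw [hA₁, rk_apply, smul_apply ν, hνX, smul_zero, zero_smul, add_zero, smul_smul]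
    have e4 : ‖μ Z * q‖ ≤ M * q * (2 / ‖V‖) := by
      rw [norm_mul, hμ, smul_apply, smul_eq_mul, norm_mul, Complex.norm_real, Complex.norm_real,
        Real.norm_of_nonneg hq0.le, Real.norm_of_nonneg (div_nonneg (by linarith) (by positivity)),
        innerSL_apply_apply]
      have i1 := norm_inner_le_norm (𝕜 := ℂ) X Z
      rw [hZ, mul_one] at i1
      have i2 : 1 / ‖X‖ ≤ 2 / ‖V‖ := by
        rw [div_le_div_iff₀ hX0 hVn]; linarith
      calc _ ≤ M / ‖X‖ ^ 2 * ‖X‖ * q := by gcongr; linarith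
        _ = M * q * (1 / ‖X‖) := by field_simp
        _ ≤ _ := by gcongr
    rw [e3, map_add, map_smul, inner_add_right, inner_smul_right]
    constructor
    · refine (norm_add_le _ _).trans ?_
      rw [norm_mul (μ Z * q)]
      calc _ ≤ 8 * σ / c + M * q * (2 / ‖V‖) * (8 * σ / (M * q)) := by
            gcongr
            · exact d2.1
            · exact d1.1
        _ = _ := by field_simp; ring
    · refine (norm_add_le _ _).trans ?_
      rw [norm_smul (μ Z * q)]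
      calc _ ≤ 8 * √σ / c + M * q * (2 / ‖V‖) * (8 * √σ / (M * q)) := by
            gcongr
            · exact d2.2
            · exact d1.2
        _ = _ := by field_simp; ring)
  have k2 : (A₁.comp A₂).det = (q : ℂ) ^ (n + 1) * M := by
    have : (A₁.comp A₂).det = A₁.det * A₂.det := LinearMap.det_comp (A₁ : En n →ₗ[ℂ] En n) A₂
    rw [this, hA₁, hA₂, det_rk, det_rk, hμ]
    simp only [smul_apply, hN1, innerSL_apply_apply, inner_self_eq_norm_sq_to_K, smul_eq_mul]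
    have : (‖X‖ : ℂ) ≠ 0 := by exact_mod_cast hX0.ne'
    simp only [Complex.coe_algebraMap]
    push_cast
    field_simp
    ring
  rw [k2, norm_mul, norm_pow, Complex.norm_real, Complex.norm_real, Real.norm_of_nonneg hq0.le,
    Real.norm_of_nonneg (by linarith)] at k1
  rw [← hq2]
  calc _ = ‖jac S.F z‖ ^ 2 * (q ^ (n + 1) * M) ^ 2 := by ring
    _ ≤ _ := k1

end Pool.Agent.H809Z.Ball
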