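import Pool.Agent.H809Z.Ball.Disc

open scoped Topology ENNReal InnerProductSpace
open Filter Metric Set MeasureTheory

namespace Pool.Agent.H809Z.Ball

variable {n : ℕ}

lemma tendsto_ray {ζ : En n} (hζ : ‖ζ‖ = 1) :
    Tendsto (fun t : ℝ => (t : ℂ) • ζ) (𝓝[<] 1) (𝓝[ball 0 1] ζ) ∧
      ∀ᶠ t : ℝ in 𝓝[<] 1, 0 < t ∧ t < 1 ∧ ‖(t : ℂ) • ζ‖ = t := by
  have h : ∀ᶠ t : ℝ in 𝓝[<] 1, 0 < t ∧ t < 1 ∧ ‖(t : ℂ) • ζ‖ = t := by
    filter_upwards [Ioo_mem_nhdsLT one_pos] with t ht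
    refine ⟨ht.1, ht.2, ?_⟩
    rw [norm_smul, hζ, Complex.norm_real, Real.norm_of_nonneg ht.1.le, mul_one]
  refine ⟨tendsto_nhdsWithin_iff.mpr ⟨?_, ?_⟩, h⟩
  · apply Tendsto.mono_left _ nhdsWithin_le_nhds
    exact Continuous.tendsto' (by fun_prop) _ _ (by simp)
  · filter_upwards [h] with t ht
    rw [mem_ball_zero_iff, ht.2.2]; exact ht.2.1

/-- the final assembly -/
theorem St.final (S : St n)
    (hmul : ∀ w ∈ ball (0 : En n) 1, jac S.F (S.φ w) * jac S.φ w = 1)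
    (hB : ∃ B : ℝ, ∀ w ∈ ball (0 : En n) 1, ‖jac S.φ w‖ ≤ B)
    (hH : S.Hopf) (hG : S.DFGlobal) (hA : S.StepA) (hW : S.StepW)
    (hcont : ∀ (c : ℂ) (l : En n →L[ℂ] ℂ) (ζ : En n), ‖ζ‖ ≤ 1 → ∃ L : ℂ,
      Tendsto (fun a => jac S.φ a * (c + l (S.φ a))) (𝓝[ball 0 1] ζ) (𝓝 L))
    (hslice : ∀ ζ : En n, ‖ζ‖ = 1 →
      (∃ c K : ℝ, 0 < c ∧ ∀ᶠ t : ℝ in 𝓝[<] 1, c * (1 - t) ^ K ≤ ‖jac S.φ ((t : ℂ) • ζ)‖) →
      ∃ (p : En n) (C : ℝ), ∀ x ∈ ball (0 : ℂ) 1,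
        ‖S.φ (x • ζ) - p‖ ≤ C * ‖1 - x‖ ^ (3 / 4 : ℝ))
    (hD : ∀ (p : En n) (g : ℂ → En n), S.ρ p = 0 → DifferentiableOn ℂ g (ball 0 1) →
      MapsTo g (ball 0 1) S.Ω → ∀ C : ℝ,
      (∀ x ∈ ball (0 : ℂ) 1, ‖g x - p‖ ≤ C * ‖1 - x‖ ^ (3 / 4 : ℝ)) →
      ∃ c : ℝ, 0 < c ∧ ∀ᶠ t : ℝ in 𝓝[<] 1, c * (1 - t) ≤ -S.ρ (g t))
    {p V : En n} (hp : S.ρ p = 0) (hV0 : V ≠ 0) (hV : CTan S.ρ p V) : 0 < levi S.ρ p V := by
  by_contra hL
  push Not at hL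
  obtain ⟨B, hB⟩ := hB
  obtain ⟨CH, hCH, hH⟩ := hH
  obtain ⟨cG, K, hcG, hK, hG⟩ := hG
  obtain ⟨CA, hA⟩ := hA
  obtain ⟨CW, hW⟩ := hW p V hp hV0 hV hL
  have hA' : ∀ w ∈ ball (0 : En n) 1, (-S.ρ (S.φ w)) ^ (n + 1) ≤
      CA * (1 - ‖w‖) ^ (n + 1) * ‖jac S.φ w‖ ^ 2 := by
    intro w hw
    have h1 := hA _ (S.mφ hw)
    rw [S.Fφ w hw] at h1
    have h2 : ‖jac S.F (S.φ w)‖ * ‖jac S.φ w‖ = 1 := by rw [← norm_mul, hmul w hw, norm_one]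
    calc _ = (‖jac S.F (S.φ w)‖ * ‖jac S.φ w‖) ^ 2 * (-S.ρ (S.φ w)) ^ (n + 1) := by
          rw [h2]; ring
      _ = ‖jac S.F (S.φ w)‖ ^ 2 * (-S.ρ (S.φ w)) ^ (n + 1) * ‖jac S.φ w‖ ^ 2 := by ring
      _ ≤ _ := by gcongr
  have hCA : 0 < CA := by
    have h1 := hA' 0 (mem_ball_self one_pos)
    have h2 : 0 < -S.ρ (S.φ 0) := neg_pos.mpr (S.mem_iff.mp (S.mφ (mem_ball_self one_pos)))
    by_contra h
    push Not at h
    simp only [norm_zero, sub_zero, one_pow, mul_one] at h1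
    nlinarith [pow_pos h2 (n + 1), sq_nonneg ‖jac S.φ 0‖]
  obtain ⟨z, hz, hzp⟩ := mem_closure_iff_seq_limit.mp (S.mem_closure hp)
  obtain ⟨ζ, hζ, s, hs, hlim⟩ := (isCompact_closedBall (0 : En n) 1).tendsto_subseq
    (x := fun k => S.F (z k)) fun k => ball_subset_closedBall (S.mF (hz k))
  rw [mem_closedBall_zero_iff] at hζ
  have hzp' : Tendsto (fun k => z (s k)) atTop (𝓝 p) := hzp.comp hs.tendsto_atTop
  have hζ1 : ‖ζ‖ = 1 := by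
    by_contra hne
    have h1 : ‖ζ‖ < 1 := lt_of_le_of_ne hζ hne
    obtain ⟨d, hd, h2⟩ := S.phi_bound (θ := (‖ζ‖ + 1) / 2) (by linarith)
    have h3 := hlim.norm.eventually (ge_mem_nhds (show ‖ζ‖ < (‖ζ‖ + 1) / 2 by linarith))
    have h4 := ((S.cont.tendsto p).comp hzp').eventually
      (lt_mem_nhds (show -d < S.ρ p by linarith))
    obtain ⟨k, h5, h6⟩ := (h3.and h4).exists
    have h7 := h2 _ h5
    simp only [Function.comp_apply] at h6 h7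
    rw [S.φF _ (hz _)] at h7
    linarith
  obtain ⟨hr1, hr2⟩ := tendsto_ray hζ1
  obtain ⟨p₀, C, hsl⟩ := hslice ζ hζ1 (by
    refine ⟨Real.sqrt (cG ^ (n + 1) / CA), K * (n + 1) / 2, by positivity, ?_⟩
    filter_upwards [hr2] with t ⟨t0, t1, t2⟩
    have hw : (t : ℂ) • ζ ∈ ball (0 : En n) 1 := by rw [mem_ball_zero_iff, t2]; exact t1
    have h1 := hA' _ hw
    have h2 := hG _ hw
    rw [t2] at h1 h2
    have h3 : 0 < 1 - t := by linarith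
    apply le_of_sq_le_sq _ (norm_nonneg _) |>.trans le_rfl
    rw [mul_pow, Real.sq_sqrt (by positivity), ← Real.rpow_natCast ((1 - t) ^ _),
      ← Real.rpow_mul h3.le, div_mul_eq_mul_div, div_le_iff₀ hCA]
    have h4 : (cG * (1 - t) ^ K) ^ (n + 1) ≤ (-S.ρ (S.φ ((t : ℂ) • ζ))) ^ (n + 1) := by gcongr
    have h5 : (1 - t) ^ (n + 1) ≤ 1 := pow_le_one₀ h3.le (by linarith)
    have h6 : CA * (1 - t) ^ (n + 1) * ‖jac S.φ ((t : ℂ) • ζ)‖ ^ 2 ≤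
        CA * 1 * ‖jac S.φ ((t : ℂ) • ζ)‖ ^ 2 := by gcongr
    rw [mul_pow, ← Real.rpow_natCast ((1 - t) ^ K), ← Real.rpow_mul h3.le] at h4
    have e : K * (n + 1) / 2 * ((2 : ℕ) : ℝ) = K * ((n + 1 : ℕ) : ℝ) := by push_cast; ring
    rw [e]
    linarith)
  have hray : Tendsto (fun t : ℝ => S.φ ((t : ℂ) • ζ)) (𝓝[<] 1) (𝓝 p₀) := by
    rw [tendsto_iff_norm_sub_tendsto_zero]
    have h1 : Tendsto (fun t : ℝ => C * ‖1 - (t : ℂ)‖ ^ (3 / 4 : ℝ)) (𝓝[<] 1) (𝓝 0) := by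
      apply Tendsto.mono_left _ nhdsWithin_le_nhds
      apply Continuous.tendsto'
      · exact continuous_const.mul ((by fun_prop : Continuous fun t : ℝ => ‖1 - (t : ℂ)‖).rpow_const
          fun _ => Or.inr (by norm_num))
      · simp
    refine squeeze_zero' (Eventually.of_forall fun _ => norm_nonneg _) ?_ h1
    filter_upwards [hr2] with t ⟨t0, t1, _⟩
    exact hsl t (by rw [mem_ball_zero_iff, Complex.norm_real, Real.norm_of_nonneg t0.le]; exact t1)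
  have hin : ∀ᶠ t : ℝ in 𝓝[<] 1, (t : ℂ) • ζ ∈ ball (0 : En n) 1 :=
    hr1.eventually self_mem_nhdsWithin
  have hp₀ : S.ρ p₀ = 0 := by
    have h1 := (S.cont.tendsto p₀).comp hray
    apply le_antisymm
    · apply le_of_tendsto h1
      filter_upwards [hin] with t ht
      exact (S.mem_iff.mp (S.mφ ht)).le
    · have h2 : Tendsto (fun t : ℝ => -(CH * (1 - t))) (𝓝[<] 1) (𝓝 0) := by
        apply Tendsto.mono_left _ nhdsWithin_le_nhds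
        exact Continuous.tendsto' (by fun_prop) _ _ (by simp)
      apply le_of_tendsto_of_tendsto h2 h1
      filter_upwards [hin, hr2] with t ht ⟨_, _, t2⟩
      have := hH _ ht
      rw [t2] at this
      simp only [Function.comp_apply]
      linarith
  have hmaps : MapsTo (fun x : ℂ => x • ζ) (ball 0 1) (ball 0 1) := by
    intro x hx
    rw [mem_ball_zero_iff] at hx ⊢
    rwa [norm_smul, hζ1, mul_one]
  obtain ⟨c, hc, hlow⟩ := hD p₀ (fun x => S.φ (x • ζ)) hp₀ (S.hφ.comp (by fun_prop) hmaps)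
    (S.mφ.comp hmaps) C hsl
  have hjlow : ∀ᶠ t : ℝ in 𝓝[<] 1, c ^ (n + 1) / CA ≤ ‖jac S.φ ((t : ℂ) • ζ)‖ ^ 2 := by
    filter_upwards [hin, hr2, hlow] with t ht ⟨t0, t1, t2⟩ h1
    have h2 := hA' _ ht
    rw [t2] at h2
    have h3 : 0 < 1 - t := by linarith
    have h4 : (c * (1 - t)) ^ (n + 1) ≤ (-S.ρ (S.φ ((t : ℂ) • ζ))) ^ (n + 1) := by gcongr
    rw [div_le_iff₀ hCA]
    apply le_of_mul_le_mul_right _ (pow_pos h3 (n + 1))
    rw [← mul_pow]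
    linarith
  have hpp : p₀ = p := by
    set l : En n →L[ℂ] ℂ := innerSL ℂ (p₀ - p) with hl
    obtain ⟨L, hL⟩ := hcont (-l p) l ζ hζ
    have h1 : Tendsto (fun k => S.F (z (s k))) atTop (𝓝[ball 0 1] ζ) :=
      tendsto_nhdsWithin_iff.mpr ⟨hlim, Eventually.of_forall fun k => S.mF (hz _)⟩
    have h2 : L = 0 := by
      have a1 := (hL.comp h1).norm
      have a2 : Tendsto (fun k => B * ‖-l p + l (z (s k))‖) atTop (𝓝 0) := by
        have := ((((l.continuous.tendsto p).comp hzp').const_add (-l p)).norm).const_mul B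
        simpa using this
      apply norm_le_zero_iff.mp (le_of_tendsto_of_tendsto' a1 a2 fun k => ?_)
      simp only [Function.comp_apply]
      rw [S.φF _ (hz _), norm_mul]
      gcongr
      exact hB _ (S.mF (hz _))
    have a1 := ((hL.comp hr1).norm).pow 2
    have a2 := (((((l.continuous.tendsto p₀).comp hray).const_add (-l p)).norm).pow 2).const_mul
      (c ^ (n + 1) / CA)
    have a3 := le_of_tendsto_of_tendsto a2 a1 (by
      filter_upwards [hjlow] with t ht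
      simp only [Function.comp_apply]
      rw [norm_mul, mul_pow]
      gcongr)
    rw [h2, norm_zero, neg_add_eq_sub, ← map_sub, hl, innerSL_apply_apply,
      inner_self_eq_norm_sq_to_K] at a3
    have a4 : 0 < c ^ (n + 1) / CA := by positivity
    by_contra hne
    have a5 : 0 < ‖p₀ - p‖ := norm_pos_iff.mpr (sub_ne_zero.mpr hne)
    simp only [Complex.coe_algebraMap, norm_pow, Complex.norm_real, norm_norm] at a3
    have a6 : 0 < c ^ (n + 1) / CA * (‖p₀ - p‖ ^ 2) ^ 2 := by positivity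
    linarith
  subst hpp
  set M := |CW| * B ^ 2 / c ^ (n + 1) + 1 with hM
  have hM1 : 1 ≤ M := by
    have : 0 ≤ |CW| * B ^ 2 / c ^ (n + 1) := by positivity
    linarith
  have h1 : Tendsto (fun t : ℝ => S.φ ((t : ℂ) • ζ)) (𝓝[<] 1) (𝓝[S.Ω] p₀) :=
    tendsto_nhdsWithin_iff.mpr ⟨hray, hin.mono fun t ht => S.mφ ht⟩
  obtain ⟨t, ⟨⟨ht, t0, t1, t2⟩, h2⟩, h3⟩ :=
    (((hin.and hr2).and hlow).and (h1.eventually (hW M hM1))).exists
  rw [S.Fφ _ ht, t2] at h3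
  have h4 : 0 < 1 - t := by linarith
  have h5 : ‖jac S.F (S.φ ((t : ℂ) • ζ))‖ * ‖jac S.φ ((t : ℂ) • ζ)‖ = 1 := by
    rw [← norm_mul, hmul _ ht, norm_one]
  have h6 : 1 ≤ ‖jac S.F (S.φ ((t : ℂ) • ζ))‖ * B := by
    rw [← h5]
    gcongr
    exact hB _ ht
  have h7 : M ^ 2 * ‖jac S.F (S.φ ((t : ℂ) • ζ))‖ ^ 2 * (c * (1 - t)) ^ (n + 1) ≤
      |CW| * (1 - t) ^ (n + 1) := by
    refine le_trans (by gcongr) (h3.trans ?_)
    gcongr
    exact le_abs_self _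
  rw [mul_pow, ← mul_assoc] at h7
  have h8 := le_of_mul_le_mul_right h7 (pow_pos h4 (n + 1))
  have h9 : M ^ 2 * c ^ (n + 1) ≤ |CW| * B ^ 2 := by
    have : 1 ≤ (‖jac S.F (S.φ ((t : ℂ) • ζ))‖ * B) ^ 2 := one_le_pow₀ h6
    calc _ = M ^ 2 * c ^ (n + 1) * 1 := (mul_one _).symm
      _ ≤ M ^ 2 * c ^ (n + 1) * (‖jac S.F (S.φ ((t : ℂ) • ζ))‖ * B) ^ 2 := by gcongr
      _ = M ^ 2 * ‖jac S.F (S.φ ((t : ℂ) • ζ))‖ ^ 2 * c ^ (n + 1) * B ^ 2 := by ring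
      _ ≤ _ := by gcongr
  rw [← le_div_iff₀ (by positivity)] at h9
  nlinarith

end Pool.Agent.H809Z.Ball
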