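import Mathlib

open scoped Topology ENNReal InnerProductSpace
open Filter Metric Set MeasureTheory

namespace Pool.Agent.H809Z.Ball

/-- complex Euclidean space -/
abbrev En (n : ℕ) := EuclideanSpace ℂ (Fin n)

variable {n : ℕ}

lemma det_real (A : En n →L[ℂ] En n) : (A.restrictScalars ℝ).det = Complex.normSq A.det := by
  have := LinearMap.det_restrictScalars (R := ℝ) (f := (A : En n →ₗ[ℂ] En n))
  rw [Algebra.norm_complex_apply] at this
  exact this

/-- scalar multiple of a rank one perturbation of the identity -/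
noncomputable def rk (a : ℂ) (f : En n →L[ℂ] ℂ) (v : En n) : En n →L[ℂ] En n :=
  a • (ContinuousLinearMap.id ℂ (En n) + f.smulRight v)

lemma rk_apply (a : ℂ) (f : En n →L[ℂ] ℂ) (v x : En n) : rk a f v x = a • (x + f x • v) := by
  simp [rk]

lemma det_rk (a : ℂ) (f : En n →L[ℂ] ℂ) (v : En n) : (rk a f v).det = a ^ n * (1 + f v) := by
  have h : ((rk a f v : En n →L[ℂ] En n) : En n →ₗ[ℂ] En n) =
      a • LinearMap.transvection (f : En n →ₗ[ℂ] ℂ) v := by
    ext1 x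
    simp [rk_apply, LinearMap.transvection.apply]
  rw [ContinuousLinearMap.det, h, LinearMap.det_smul, LinearMap.transvection.det]
  simp

/-- the non-isotropic distance -/
noncomputable def dd (x w : En n) : ℝ := ‖1 - ⟪w, x⟫_ℂ‖

lemma dd_comm (x w : En n) : dd x w = dd w x := by
  unfold dd
  rw [← inner_conj_symm w x, ← Complex.norm_conj]
  simp

lemma continuous_dd (x : En n) : Continuous (dd x) := by
  unfold dd; fun_prop

lemma dd_nonneg (x w : En n) : 0 ≤ dd x w := norm_nonneg _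

lemma le_dd (x w : En n) : 1 - ‖x‖ * ‖w‖ ≤ dd x w := by
  unfold dd
  have h1 := norm_inner_le_norm (𝕜 := ℂ) w x
  have h2 := norm_sub_norm_le (1 : ℂ) ⟪w, x⟫_ℂ
  rw [norm_one] at h2
  nlinarith

lemma depth_le_dd {x w : En n} (hx : ‖x‖ ≤ 1) : 1 - ‖w‖ ≤ dd x w := by
  have := le_dd x w
  nlinarith [norm_nonneg w]

lemma dd_pos {x w : En n} (hx : ‖x‖ ≤ 1) (hw : ‖w‖ < 1) : 0 < dd x w := by
  have := depth_le_dd (w := w) hx
  linarith

lemma dd_le_two {x w : En n} (hx : ‖x‖ ≤ 1) (hw : ‖w‖ ≤ 1) : dd x w ≤ 2 := by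
  unfold dd
  have h1 := norm_inner_le_norm (𝕜 := ℂ) w x
  have h2 := norm_sub_le (1 : ℂ) ⟪w, x⟫_ℂ
  rw [norm_one] at h2
  nlinarith [norm_nonneg x, norm_nonneg w]

lemma norm_sub_sq_le_dd {x w : En n} (hx : ‖x‖ ≤ 1) (hw : ‖w‖ ≤ 1) :
    ‖w - x‖ ^ 2 ≤ 2 * dd x w := by
  rw [@norm_sub_sq ℂ]
  have h1 : (1 - ⟪w, x⟫_ℂ).re ≤ dd x w := Complex.re_le_norm _
  simp only [Complex.sub_re, Complex.one_re] at h1
  simp only [RCLike.re_to_complex]
  nlinarith [norm_nonneg x, norm_nonneg w]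

/-- quasi triangle inequality -/
lemma dd_triangle {x y z : En n} (hx : ‖x‖ ≤ 1) (hy : ‖y‖ ≤ 1) (hz : ‖z‖ ≤ 1) :
    dd z y ≤ 2 * dd x y + 4 * dd z x := by
  have e : 1 - ⟪y, z⟫_ℂ = (1 - ⟪y, x⟫_ℂ) + (1 - ⟪x, z⟫_ℂ) - (1 - ⟪x, x⟫_ℂ) - ⟪y - x, z - x⟫_ℂ := by
    simp only [inner_sub_left, inner_sub_right]
    ring
  have h1 := norm_sub_sq_le_dd hx hy
  have h2 := norm_sub_sq_le_dd hx hz
  rw [dd_comm x z] at h2
  have h3 : ‖⟪y - x, z - x⟫_ℂ‖ ≤ dd x y + dd z x := by
    have := norm_inner_le_norm (𝕜 := ℂ) (y - x) (z - x)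
    nlinarith [sq_nonneg (‖y - x‖ - ‖z - x‖)]
  have h4 : ‖1 - ⟪x, x⟫_ℂ‖ ≤ 2 * dd z x := by
    rw [inner_self_eq_norm_sq_to_K]
    have e2 : (1 : ℂ) - ((‖x‖ : ℝ) : ℂ) ^ 2 = ((1 - ‖x‖ ^ 2 : ℝ) : ℂ) := by push_cast; ring
    have h5 := depth_le_dd (w := x) hz
    simp only [Complex.coe_algebraMap]
    rw [e2, Complex.norm_real, Real.norm_of_nonneg (by nlinarith [norm_nonneg x])]
    nlinarith [norm_nonneg x]
  have h6 : dd z y ≤ dd x y + dd z x + ‖1 - ⟪x, x⟫_ℂ‖ + ‖⟪y - x, z - x⟫_ℂ‖ := by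
    unfold dd
    rw [e]
    refine (norm_sub_le _ _).trans (add_le_add_left ((norm_sub_le _ _).trans
      (add_le_add_left (norm_add_le _ _) _)) _)
  linarith

/-- volume of non-isotropic balls -/
lemma vol_kor (n : ℕ) : ∃ C : ℝ, 0 < C ∧ ∀ x : En n, ‖x‖ ≤ 1 → ∀ r : ℝ, 0 < r →
    volume {w : En n | ‖w‖ < 1 ∧ dd x w < r} ≤ ENNReal.ofReal (C * r ^ (n + 1)) := by
  set V := (volume (ball (0 : En n) 5)).toReal with hV
  have hVt : volume (ball (0 : En n) 5) = ENNReal.ofReal V :=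
    (ENNReal.ofReal_toReal measure_ball_lt_top.ne).symm
  have hV0 : 0 ≤ V := ENNReal.toReal_nonneg
  refine ⟨2 ^ (n + 1) * V + 1, by positivity, ?_⟩
  intro x hx r hr
  by_cases hr2 : 1 / 2 ≤ r
  · calc volume {w : En n | ‖w‖ < 1 ∧ dd x w < r} ≤ volume (ball (0 : En n) 5) := by
          apply measure_mono
          intro w hw
          rw [mem_ball_zero_iff]; linarith [hw.1]
      _ ≤ _ := by
          rw [hVt]
          apply ENNReal.ofReal_le_ofReal
          have h1 : (1 : ℝ) ≤ (2 * r) ^ (n + 1) := one_le_pow₀ (by linarith)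
          rw [mul_pow] at h1
          nlinarith [pow_pos hr (n + 1)]
  push Not at hr2
  by_cases hx0 : x = 0
  · have : {w : En n | ‖w‖ < 1 ∧ dd x w < r} = ∅ := by
      ext w
      simp only [mem_ofPred_eq, mem_empty_iff_false, iff_false, not_and, not_lt]
      intro _
      simp [hx0, dd]
      linarith
    rw [this, measure_empty]; exact zero_le
  have hxn : 0 < ‖x‖ := norm_pos_iff.mpr hx0
  set u : En n := ((‖x‖⁻¹ : ℝ) : ℂ) • x with hu
  have hun : ‖u‖ = 1 := by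
    rw [hu, norm_smul, Complex.norm_real, Real.norm_of_nonneg (by positivity),
      inv_mul_cancel₀ hxn.ne']
  have huu : ⟪u, u⟫_ℂ = 1 := by rw [inner_self_eq_norm_sq_to_K, hun]; simp
  have hxu : x = ((‖x‖ : ℝ) : ℂ) • u := by
    rw [hu, smul_smul, ← Complex.ofReal_mul, mul_inv_cancel₀ hxn.ne']; simp
  set q := Real.sqrt r with hq
  have hq0 : 0 < q := Real.sqrt_pos.mpr hr
  have hq2 : q ^ 2 = r := Real.sq_sqrt hr.le
  set S := rk (q : ℂ) (((q : ℂ) - 1) • innerSL ℂ u) u with hS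
  have hsub : {w : En n | ‖w‖ < 1 ∧ dd x w < r} ⊆
      (fun y => u + y) '' ((S.restrictScalars ℝ) '' ball 0 5) := by
    rintro w ⟨hw1, hw2⟩
    set c := ⟪u, w⟫_ℂ with hc
    have hcn : ‖c‖ ≤ ‖w‖ := by
      have := norm_inner_le_norm (𝕜 := ℂ) u w
      rwa [hun, one_mul] at this
    have h1 : ‖1 - (‖x‖ : ℂ) * c‖ < r := by
      rw [dd_comm] at hw2
      unfold dd at hw2
      rw [hxu, inner_smul_left] at hw2
      simpa using hw2
    have h2 : 1 - ‖x‖ < r := by
      have := norm_sub_norm_le (1 : ℂ) ((‖x‖ : ℂ) * c)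
      rw [norm_one, norm_mul, Complex.norm_real, norm_norm] at this
      nlinarith [norm_nonneg c]
    have h3 : ‖c - 1‖ ≤ 2 * r := by
      have e : c - 1 = ((1 - ‖x‖ : ℝ) : ℂ) * c - (1 - (‖x‖ : ℂ) * c) := by push_cast; ring
      rw [e]
      refine (norm_sub_le _ _).trans ?_
      rw [norm_mul, Complex.norm_real, Real.norm_of_nonneg (by linarith)]
      nlinarith [norm_nonneg c]
    set w' := w - c • u with hw'
    have h4 : ‖w'‖ ^ 2 = ‖w‖ ^ 2 - ‖c‖ ^ 2 := by
      rw [hw', @norm_sub_sq ℂ, inner_smul_right, norm_smul, hun, ← inner_conj_symm w u, ← hc,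
        Complex.mul_conj, Complex.normSq_eq_norm_sq]
      simp only [RCLike.re_to_complex, Complex.ofReal_re]
      ring
    have h5 : 1 - ‖c‖ ≤ 2 * r := by
      have := norm_sub_norm_le (1 : ℂ) c
      rw [norm_one, norm_sub_rev] at this
      linarith
    have h6 : ‖w'‖ ≤ 2 * q := by
      apply le_of_sq_le_sq _ (by positivity) |>.trans le_rfl
      rw [h4, mul_pow, hq2]
      nlinarith [norm_nonneg c, norm_nonneg w]
    have hw'u : ⟪u, w'⟫_ℂ = 0 := by
      rw [hw', inner_sub_right, inner_smul_right, huu, mul_one, sub_self]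
    refine ⟨_, ⟨((c - 1) / r) • u + ((q : ℂ)⁻¹) • w', ?_, rfl⟩, ?_⟩
    · rw [mem_ball_zero_iff]
      refine (norm_add_le _ _).trans_lt ?_
      rw [norm_smul ((c - 1) / r) u, norm_smul _ w', hun, norm_div, norm_inv, Complex.norm_real, Complex.norm_real,
        Real.norm_of_nonneg hr.le, Real.norm_of_nonneg hq0.le]
      have a1 : ‖c - 1‖ / r ≤ 2 := by rw [div_le_iff₀ hr]; exact h3
      have a2 : q⁻¹ * ‖w'‖ ≤ 2 := by rw [inv_mul_le_iff₀ hq0]; linarith
      linarith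
    · simp only [ContinuousLinearMap.coe_restrictScalars', hS, rk_apply, smul_apply,
        innerSL_apply_apply, inner_add_right, inner_smul_right, huu, hw'u, smul_eq_mul]
      have hqc : (q : ℂ) ≠ 0 := by exact_mod_cast hq0.ne'
      have hrq : (r : ℂ) = (q : ℂ) ^ 2 := by rw [← hq2]; push_cast; ring
      rw [hw', hrq]
      match_scalars <;> field_simp <;> ring
  refine (measure_mono hsub).trans ?_
  rw [image_add_left, measure_preimage_add, Measure.addHaar_image_continuousLinearMap, hVt]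
  have hdet : LinearMap.det ((S.restrictScalars ℝ : En n →L[ℝ] En n) : En n →ₗ[ℝ] En n) =
      r ^ (n + 1) := by
    have := det_real S
    rw [ContinuousLinearMap.det] at this
    rw [this, hS, det_rk]
    simp only [smul_apply, innerSL_apply_apply, huu, smul_eq_mul, mul_one, add_sub_cancel]
    rw [← pow_succ, ← Complex.ofReal_pow, Complex.normSq_ofReal, ← hq2]
    ring
  rw [hdet, abs_of_pos (pow_pos hr _), ← ENNReal.ofReal_mul (pow_pos hr _).le]
  apply ENNReal.ofReal_le_ofReal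
  have h1 : (1 : ℝ) ≤ 2 ^ (n + 1) := one_le_pow₀ (by norm_num)
  nlinarith [pow_pos hr (n + 1), mul_nonneg hV0 (pow_pos hr (n + 1)).le]

end Pool.Agent.H809Z.Ball
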